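import Mathlib.Topology.Sheaves.Presheaf
import Mathlib.Tactic.Monotonicity.Lemmas
import Mathlib.FieldTheory.Perfect
import Mathlib.RingTheory.Flat.TorsionFree
import Mathlib.Algebra.Order.Ring.Star
import Mathlib.Topology.GDelta.MetrizableSpace
import Mathlib.Analysis.Normed.Group.Quotient
import Mathlib.Topology.ContinuousMap.Bounded.Normed
import Mathlib.Analysis.InnerProductSpace.Basic
import Mathlib.Algebra.Order.Star.Real
import Mathlib.Analysis.Real.Cardinality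
import Mathlib.Combinatorics.SimpleGraph.Basic
import Mathlib.Analysis.Normed.Module.DoubleDual
import Mathlib.RingTheory.PiTensorProduct
import Mathlib.RingTheory.SimpleRing.Principal
import Mathlib.Order.CompletePartialOrder
import Mathlib.RingTheory.Henselian
import Mathlib.RingTheory.RegularLocalRing.Defs
import Mathlib.Tactic.Algebra.Basic

-- ======== part 0: formerly Pool.Agent.MP_cdcde1_an.Basic
section MrgPart0

/-! Basic Hahn-Banach tools for the bidual-quotient problem. -/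

set_option autoImplicit false

open Filter Topology

namespace Pool.Agent.MP_cdcde1_an

variable {𝕜 : Type*} [RCLike 𝕜]

/-- Factorisation form of the Hahn-Banach theorem. -/
theorem factor {E W : Type*} [AddCommGroup E] [Module 𝕜 E] [SeminormedAddCommGroup W]
    [NormedSpace 𝕜 W] (Q : E →ₗ[𝕜] W) (φ : E →ₗ[𝕜] 𝕜) (K : ℝ) (hK : 0 ≤ K)
    (h : ∀ e, ‖φ e‖ ≤ K * ‖Q e‖) :
    ∃ ν : StrongDual 𝕜 W, ‖ν‖ ≤ K ∧ ∀ e, ν (Q e) = φ e := by
  have hker : LinearMap.ker Q ≤ LinearMap.ker φ := by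
    intro e he
    rw [LinearMap.mem_ker] at he ⊢
    have := h e
    rw [he, norm_zero, mul_zero] at this
    exact norm_le_zero_iff.mp this
  let ψ : LinearMap.range Q →ₗ[𝕜] 𝕜 :=
    ((LinearMap.ker Q).liftQ φ hker) ∘ₗ (Q.quotKerEquivRange.symm : _ →ₗ[𝕜] _)
  have hψ : ∀ e, ψ ⟨Q e, LinearMap.mem_range_self Q e⟩ = φ e := by
    intro e
    have : Q.quotKerEquivRange.symm ⟨Q e, LinearMap.mem_range_self Q e⟩ =
        (LinearMap.ker Q).mkQ e := by
      rw [LinearMap.quotKerEquivRange_symm_apply_image]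
    simp only [ψ, LinearMap.coe_comp, LinearEquiv.coe_coe, Function.comp_apply, this]
    simp
  have hb : ∀ x : LinearMap.range Q, ‖ψ x‖ ≤ K * ‖x‖ := by
    rintro ⟨x, e, rfl⟩
    rw [hψ e]
    exact h e
  obtain ⟨g, hg, hn⟩ := exists_extension_norm_eq (LinearMap.range Q) (ψ.mkContinuous K hb)
  refine ⟨g, ?_, fun e => ?_⟩
  · rw [hn]; exact LinearMap.mkContinuous_norm_le _ hK _
  · have := hg ⟨Q e, LinearMap.mem_range_self Q e⟩
    simpa [hψ e] using this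

/-- Ultrafilter limits of eventually bounded scalars exist. -/
theorem slim {ι : Type*} (U : Ultrafilter ι) (a : ι → 𝕜) (C : ℝ)
    (h : ∀ᶠ i in (U : Filter ι), ‖a i‖ ≤ C) : ∃ l, Tendsto a U (𝓝 l) := by
  have hc : IsCompact (Metric.closedBall (0 : 𝕜) C) := isCompact_closedBall _ _
  have hle : (U.map a : Filter 𝕜) ≤ 𝓟 (Metric.closedBall (0 : 𝕜) C) := by
    rw [le_principal_iff]
    change a ⁻¹' _ ∈ (U : Filter ι)
    filter_upwards [h] with i hi
    simpa using hi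
  obtain ⟨l, -, hl⟩ := hc.ultrafilter_le_nhds (U.map a) hle
  exact ⟨l, hl⟩

/-- Ultrafilter limits of bounded families of functionals. -/
theorem ulim {ι E : Type*} [SeminormedAddCommGroup E] [NormedSpace 𝕜 E] (U : Ultrafilter ι)
    (T : ι → StrongDual 𝕜 E) (C : ℝ) (hC : 0 ≤ C) (h : ∀ i, ‖T i‖ ≤ C) :
    ∃ S : StrongDual 𝕜 E, ‖S‖ ≤ C ∧ ∀ x, Tendsto (fun i => T i x) U (𝓝 (S x)) := by
  have hb : ∀ x i, ‖T i x‖ ≤ C * ‖x‖ := fun x i =>
    ((T i).le_opNorm x).trans (mul_le_mul_of_nonneg_right (h i) (norm_nonneg x))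
  choose l hl using fun x => slim U (fun i => T i x) (C * ‖x‖) (Eventually.of_forall (hb x))
  let S₀ : E →ₗ[𝕜] 𝕜 :=
    { toFun := l
      map_add' := fun x y => by
        refine tendsto_nhds_unique (hl (x + y)) ?_
        simpa using (hl x).add (hl y)
      map_smul' := fun c x => by
        refine tendsto_nhds_unique (hl (c • x)) ?_
        simpa using (hl x).const_mul c }
  have hS : ∀ x, ‖S₀ x‖ ≤ C * ‖x‖ := fun x =>
    le_of_tendsto (hl x).norm (Eventually.of_forall (hb x))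
  exact ⟨S₀.mkContinuous C hS, LinearMap.mkContinuous_norm_le _ hC _, hl⟩

variable {Y : Type*} [NormedAddCommGroup Y] [NormedSpace 𝕜 Y]

/-- Goldstine's theorem in finite form. -/
theorem gold (u : StrongDual 𝕜 (StrongDual 𝕜 Y)) (hu : ‖u‖ ≤ 1) {ι : Type} [Fintype ι]
    (g : ι → StrongDual 𝕜 Y) (ε : ℝ) (hε : 0 < ε) :
    ∃ y : Y, ‖y‖ ≤ 1 ∧ ∀ j, ‖g j y - u (g j)‖ < ε := by
  classical
  let G : Y →L[𝕜] (ι → 𝕜) := ContinuousLinearMap.pi g
  let s : Set (ι → 𝕜) := G '' Metric.closedBall 0 1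
  have hs : Convex ℝ s := by
    rintro _ ⟨y, hy, rfl⟩ _ ⟨y', hy', rfl⟩ a b ha hb hab
    refine ⟨(a : 𝕜) • y + (b : 𝕜) • y', ?_, ?_⟩
    · rw [mem_closedBall_zero_iff] at hy hy' ⊢
      calc ‖(a : 𝕜) • y + (b : 𝕜) • y'‖ ≤ ‖(a : 𝕜) • y‖ + ‖(b : 𝕜) • y'‖ := norm_add_le _ _
        _ = a * ‖y‖ + b * ‖y'‖ := by
          rw [norm_smul, norm_smul, RCLike.norm_ofReal, RCLike.norm_ofReal, abs_of_nonneg ha,
            abs_of_nonneg hb]
        _ ≤ a * 1 + b * 1 := by gcongr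
        _ = 1 := by linarith
    · rw [map_add, map_smul, map_smul]
      ext j
      simp [RCLike.real_smul_eq_coe_mul]
  let p : ι → 𝕜 := fun j => u (g j)
  have hp : p ∈ closure s := by
    by_contra hp
    obtain ⟨f, c, hf, hc⟩ :=
      RCLike.geometric_hahn_banach_closed_point (𝕜 := 𝕜) hs.closure isClosed_closure hp
    let h : StrongDual 𝕜 Y := f.comp G
    have hsum : h = ∑ j, f (Pi.single j 1) • g j := by
      ext y
      have : G y = ∑ j, (g j y) • (Pi.single j (1 : 𝕜) : ι → 𝕜) := by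
        ext k
        simp [G, Pi.single_apply]
      simp [h, this, mul_comm]
    have hfp : f p = u h := by
      have : p = ∑ j, (u (g j)) • (Pi.single j (1 : 𝕜) : ι → 𝕜) := by
        ext k
        simp [p, Pi.single_apply]
      rw [hsum, this]
      simp [mul_comm]
    have hc0 : 0 < c := by
      have := hf 0 (subset_closure ⟨0, by simp, by simp⟩)
      simpa using this
    have hh : ‖h‖ ≤ c := by
      by_contra hlt
      obtain ⟨y, hy, hy'⟩ := h.exists_lt_apply_of_lt_opNorm (not_le.1 hlt)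
      obtain ⟨a, ha, ha'⟩ := RCLike.exists_norm_eq_mul_self (h y)
      have h2 := hf (G (a • y)) (subset_closure ⟨a • y, by
        rw [mem_closedBall_zero_iff, norm_smul, ha, one_mul]; exact hy.le, rfl⟩)
      have h3 : f (G (a • y)) = (‖h y‖ : 𝕜) := by
        rw [ha']; simp [h]
      rw [h3, RCLike.ofReal_re] at h2
      linarith
    have h1 : RCLike.re (f p) ≤ c := by
      calc RCLike.re (f p) ≤ ‖f p‖ := RCLike.re_le_norm _
        _ = ‖u h‖ := by rw [hfp]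
        _ ≤ ‖u‖ * ‖h‖ := u.le_opNorm h
        _ ≤ 1 * c := by gcongr
        _ = c := one_mul c
    linarith
  obtain ⟨_, ⟨y, hy, rfl⟩, hd⟩ := Metric.mem_closure_iff.1 hp ε hε
  refine ⟨y, by simpa using hy, fun j => ?_⟩
  have := (dist_le_pi_dist p (G y) j).trans_lt hd
  rw [dist_comm, dist_eq_norm] at this
  simpa [G, p] using this

end Pool.Agent.MP_cdcde1_an

end MrgPart0

-- ======== part 1: formerly Pool.Agent.MP_cdcde1_an.Ideal
section MrgPart1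

/-! Countable sets carrying a linear extension operator (Lindenstrauss, Sims-Yost). -/

set_option autoImplicit false

open Filter Topology

namespace Pool.Agent.MP_cdcde1_an

theorem dense_pick {α β : Type*} [TopologicalSpace β] [SecondCountableTopology β] (Θ : α → β) :
    ∃ C : Set α, C.Countable ∧ ∀ a, Θ a ∈ closure (Θ '' C) := by
  let : TopologicalSpace α := TopologicalSpace.induced Θ inferInstance
  have : SecondCountableTopology α := TopologicalSpace.secondCountableTopology_induced α β Θ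
  obtain ⟨C, hC, hd⟩ := TopologicalSpace.exists_countable_dense α
  exact ⟨C, hC, fun a => closure_induced.1 (hd a)⟩

variable {𝕜 : Type*} [RCLike 𝕜] {Y : Type*} [NormedAddCommGroup Y] [NormedSpace 𝕜 Y]

/-- The test functions used to copy finite configurations. -/
noncomputable def test {α : Type*} (z : α → Y) (τ : α × α × α × 𝕜 × 𝕜 × Y) : ℝ :=
  ‖z τ.1 - τ.2.2.2.1 • z τ.2.1 - τ.2.2.2.2.1 • z τ.2.2.1 - τ.2.2.2.2.2‖

theorem step (Λ : Set 𝕜) (hΛ : Λ.Countable) (D : Set Y) (hD : D.Countable) :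
    ∃ D' : Set Y, D'.Countable ∧ D ⊆ D' ∧
      ∀ (y : ℕ → Y) (F : Finset (ℕ × ℕ × ℕ × 𝕜 × 𝕜 × Y)) (ε : ℝ), 0 < ε →
        (∀ τ ∈ F, τ.2.2.2.1 ∈ Λ ∧ τ.2.2.2.2.1 ∈ Λ ∧ τ.2.2.2.2.2 ∈ D) →
        ∃ z : ℕ → Y, (∀ n, z n ∈ D') ∧ ∀ τ ∈ F, |test z τ - test y τ| < ε := by
  classical
  let J := {τ : ℕ × ℕ × ℕ × 𝕜 × 𝕜 × Y // τ.2.2.2.1 ∈ Λ ∧ τ.2.2.2.2.1 ∈ Λ ∧ τ.2.2.2.2.2 ∈ D}
  have hJ : Countable J := by
    have : {τ : ℕ × ℕ × ℕ × 𝕜 × 𝕜 × Y |
        τ.2.2.2.1 ∈ Λ ∧ τ.2.2.2.2.1 ∈ Λ ∧ τ.2.2.2.2.2 ∈ D}.Countable := by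
      have h := (Set.countable_univ (α := ℕ)).prod ((Set.countable_univ (α := ℕ)).prod
        ((Set.countable_univ (α := ℕ)).prod (hΛ.prod (hΛ.prod hD))))
      refine h.mono fun τ hτ => ?_
      simpa using hτ
    exact this.to_subtype
  let Θ : (ℕ → Y) → (J → ℝ) := fun y j => test y j.1
  obtain ⟨C, hC, hd⟩ := dense_pick Θ
  refine ⟨D ∪ ⋃ z ∈ C, Set.range z, hD.union (hC.biUnion fun z _ => Set.countable_range z),
    Set.subset_union_left, fun y F ε hε hF => ?_⟩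
  have hfin : {j : J | j.1 ∈ F}.Finite :=
    (F.finite_toSet.preimage Subtype.val_injective.injOn)
  have hn : Set.pi {j : J | j.1 ∈ F} (fun j => Metric.ball (Θ y j) ε) ∈ 𝓝 (Θ y) :=
    set_pi_mem_nhds hfin fun j _ => Metric.ball_mem_nhds _ hε
  obtain ⟨_, hz, z, hzC, rfl⟩ := mem_closure_iff_nhds.1 (hd y) _ hn
  refine ⟨z, fun n => Or.inr (Set.mem_biUnion hzC ⟨n, rfl⟩), fun τ hτ => ?_⟩
  have := hz ⟨τ, hF τ hτ⟩ hτ
  simpa [Θ, Real.dist_eq] using this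

theorem closed_set (Λ : Set 𝕜) (hΛ : Λ.Countable) (D₀ : Set Y) (hD : D₀.Countable) :
    ∃ D : Set Y, D.Countable ∧ D₀ ⊆ D ∧
      ∀ (F : Finset (Y × Y × Y × 𝕜 × 𝕜 × Y)) (ε : ℝ), 0 < ε →
        (∀ τ ∈ F, τ.2.2.2.1 ∈ Λ ∧ τ.2.2.2.2.1 ∈ Λ ∧ τ.2.2.2.2.2 ∈ D) →
        ∃ z : Y → Y, (∀ a, z a ∈ D) ∧ ∀ τ ∈ F, |test z τ - test id τ| < ε := by
  classical
  choose Φ hΦc hΦs hΦ using fun D : {D : Set Y // D.Countable} => step Λ hΛ D.1 D.2
  let Ψ : {D : Set Y // D.Countable} → {D : Set Y // D.Countable} := fun D => ⟨Φ D, hΦc D⟩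
  let S : ℕ → {D : Set Y // D.Countable} := fun n => Ψ^[n] ⟨D₀, hD⟩
  have hS : ∀ n, S (n + 1) = Ψ (S n) := fun n => Function.iterate_succ_apply' _ _ _
  have hmono : Monotone fun n => (S n).1 := by
    refine monotone_nat_of_le_succ fun n => ?_
    rw [hS n]
    exact hΦs (S n)
  refine ⟨⋃ n, (S n).1, Set.countable_iUnion fun n => (S n).2,
    Set.subset_iUnion (fun n => (S n).1) 0, fun F ε hε hF => ?_⟩
  obtain ⟨N, hN⟩ : ∃ N, ∀ τ ∈ F, τ.2.2.2.2.2 ∈ (S N).1 := by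
    have h1 : ∀ τ ∈ F, ∀ᶠ N in atTop, τ.2.2.2.2.2 ∈ (S N).1 := by
      intro τ hτ
      obtain ⟨n, hn⟩ := Set.mem_iUnion.1 (hF τ hτ).2.2
      filter_upwards [eventually_ge_atTop n] with N hN using hmono hN hn
    exact ((eventually_all_finset F).2 h1).exists
  let G : Set Y := insert 0 ((fun τ => τ.1) '' (F : Set (Y × Y × Y × 𝕜 × 𝕜 × Y)) ∪
    (fun τ => τ.2.1) '' (F : Set (Y × Y × Y × 𝕜 × 𝕜 × Y)) ∪
    (fun τ => τ.2.2.1) '' (F : Set (Y × Y × Y × 𝕜 × 𝕜 × Y)))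
  have hG : G.Countable := by
    refine Set.Countable.insert _ ?_
    exact ((F.countable_toSet.image _).union (F.countable_toSet.image _)).union
      (F.countable_toSet.image _)
  obtain ⟨y, hy⟩ := hG.exists_eq_range ⟨0, Set.mem_insert _ _⟩
  let k : Y → ℕ := Function.invFun y
  have hk : ∀ a ∈ G, y (k a) = a := fun a ha => Function.invFun_eq (by rwa [hy] at ha)
  let m : Y × Y × Y × 𝕜 × 𝕜 × Y → ℕ × ℕ × ℕ × 𝕜 × 𝕜 × Y :=
    fun τ => (k τ.1, k τ.2.1, k τ.2.2.1, τ.2.2.2)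
  obtain ⟨z, hz, hzF⟩ := hΦ (S N) y (F.image m) ε hε (by
    intro σ hσ
    obtain ⟨τ, hτ, rfl⟩ := Finset.mem_image.1 hσ
    exact ⟨(hF τ hτ).1, (hF τ hτ).2.1, hN τ hτ⟩)
  refine ⟨fun a => z (k a), fun a => Set.mem_iUnion.2 ⟨N + 1, ?_⟩, fun τ hτ => ?_⟩
  · rw [hS N]; exact hz _
  · have h := hzF (m τ) (Finset.mem_image_of_mem m hτ)
    have h1 : y (k τ.1) = τ.1 := hk _ (Or.inr (Or.inl (Or.inl ⟨τ, hτ, rfl⟩)))
    have h2 : y (k τ.2.1) = τ.2.1 := hk _ (Or.inr (Or.inl (Or.inr ⟨τ, hτ, rfl⟩)))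
    have h3 : y (k τ.2.2.1) = τ.2.2.1 := hk _ (Or.inr (Or.inr ⟨τ, hτ, rfl⟩))
    simpa [test, m, h1, h2, h3] using h

/-- Every countable set is contained in a countable set `D` admitting a norm-one linear
operator `R` on the dual which kills the annihilator of `D` and does not change values on `D`. -/
theorem exists_ideal (D₀ : Set Y) (hD₀ : D₀.Countable) :
    ∃ (D : Set Y) (R : StrongDual 𝕜 Y →L[𝕜] StrongDual 𝕜 Y), D.Countable ∧ D₀ ⊆ D ∧ ‖R‖ ≤ 1 ∧
      (∀ f, (∀ d ∈ D, f d = 0) → R f = 0) ∧ ∀ f, ∀ d ∈ D, R f d = f d := by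
  classical
  obtain ⟨Λ₀, hΛ₀, hΛd⟩ := TopologicalSpace.exists_countable_dense 𝕜
  let Λ : Set 𝕜 := insert 0 (insert 1 Λ₀)
  have hΛ : Λ.Countable := (hΛ₀.insert 1).insert 0
  have h0 : (0 : 𝕜) ∈ Λ := Or.inl rfl
  have h1 : (1 : 𝕜) ∈ Λ := Or.inr (Or.inl rfl)
  obtain ⟨D, hD, hsub, hcl⟩ := closed_set Λ hΛ (insert 0 D₀) (hD₀.insert 0)
  have hD0 : (0 : Y) ∈ D := hsub (Or.inl rfl)
  let T := {τ : Y × Y × Y × 𝕜 × 𝕜 × Y // τ.2.2.2.1 ∈ Λ ∧ τ.2.2.2.2.1 ∈ Λ ∧ τ.2.2.2.2.2 ∈ D}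
  have hz : ∀ i : Finset T × ℕ, ∃ z : Y → Y, (∀ a, z a ∈ D) ∧
      ∀ τ ∈ i.1, |test z τ.1 - test id τ.1| < 1 / ((i.2 : ℝ) + 1) := by
    intro i
    obtain ⟨z, hz, h⟩ := hcl (i.1.image Subtype.val) (1 / ((i.2 : ℝ) + 1)) (by positivity) (by
      intro σ hσ
      obtain ⟨τ, -, rfl⟩ := Finset.mem_image.1 hσ
      exact τ.2)
    exact ⟨z, hz, fun τ hτ => h _ (Finset.mem_image_of_mem _ hτ)⟩
  choose z hzD hzt using hz
  let U : Ultrafilter (Finset T × ℕ) := Ultrafilter.of atTop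
  have hU : (U : Filter (Finset T × ℕ)) ≤ atTop := Ultrafilter.of_le _
  have hlim : ∀ τ : T, Tendsto (fun i => test (z i) τ.1) U (𝓝 (test id τ.1)) := by
    intro τ
    refine Tendsto.mono_left ?_ hU
    rw [tendsto_iff_dist_tendsto_zero]
    have h2 : Tendsto (fun i : Finset T × ℕ => 1 / ((i.2 : ℝ) + 1)) atTop (𝓝 0) := by
      refine tendsto_one_div_add_atTop_nhds_zero_nat.comp ?_
      rw [← prod_atTop_atTop_eq]
      exact tendsto_snd
    refine squeeze_zero' (Eventually.of_forall fun _ => dist_nonneg) ?_ h2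
    filter_upwards [eventually_ge_atTop (({τ} : Finset T), 0)] with i hi
    rw [Real.dist_eq]
    exact (hzt i τ (hi.1 (Finset.mem_singleton_self τ))).le
  have hnorm : ∀ a, Tendsto (fun i => ‖z i a‖) U (𝓝 ‖a‖) := fun a => by
    simpa [test] using hlim ⟨(a, 0, 0, 0, 0, 0), h0, h0, hD0⟩
  have hadd : ∀ a b, Tendsto (fun i => z i (a + b) - z i a - z i b) U (𝓝 0) := fun a b => by
    rw [tendsto_zero_iff_norm_tendsto_zero]
    simpa [test] using hlim ⟨(a + b, a, b, 1, 1, 0), h1, h1, hD0⟩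
  have hsmul : ∀ c ∈ Λ, ∀ a, Tendsto (fun i => z i (c • a) - c • z i a) U (𝓝 0) :=
    fun c hc a => by
    rw [tendsto_zero_iff_norm_tendsto_zero]
    simpa [test] using hlim ⟨(c • a, a, 0, c, 0, 0), hc, h0, hD0⟩
  have hfix : ∀ d ∈ D, Tendsto (fun i => z i d) U (𝓝 d) := fun d hd => by
    rw [tendsto_iff_norm_sub_tendsto_zero]
    simpa [test] using hlim ⟨(d, 0, 0, 0, 0, d), h0, h0, hd⟩
  have hex : ∀ (f : StrongDual 𝕜 Y) (a : Y), ∃ l, Tendsto (fun i => f (z i a)) U (𝓝 l) := by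
    intro f a
    refine slim U _ (‖f‖ * (‖a‖ + 1)) ?_
    filter_upwards [(hnorm a).eventually (eventually_le_nhds (lt_add_one ‖a‖))] with i hi
    exact (f.le_opNorm _).trans (mul_le_mul_of_nonneg_left hi (norm_nonneg f))
  choose τ hτ using hex
  have hb : ∀ f a, ‖τ f a‖ ≤ 1 * ‖f‖ * ‖a‖ := fun f a => by
    rw [one_mul]
    exact le_of_tendsto_of_tendsto' (hτ f a).norm ((hnorm a).const_mul ‖f‖)
      fun i => f.le_opNorm _
  have hτadd : ∀ f a b, τ f (a + b) = τ f a + τ f b := fun f a b => by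
    have h2 := ((hτ f (a + b)).sub (hτ f a)).sub (hτ f b)
    have h3 := (f.continuous.tendsto 0).comp (hadd a b)
    have h4 : τ f (a + b) - τ f a - τ f b = f 0 :=
      tendsto_nhds_unique h2 (by simpa [Function.comp_def] using h3)
    rw [map_zero] at h4
    linear_combination h4
  have hτsmul : ∀ f (c : 𝕜) a, τ f (c • a) = c • τ f a := fun f c a => by
    have hΛc : ∀ c ∈ Λ, τ f (c • a) = c • τ f a := fun c hc => by
      have h2 := (hτ f (c • a)).sub ((hτ f a).const_mul c)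
      have h3 := (f.continuous.tendsto 0).comp (hsmul c hc a)
      have h4 : τ f (c • a) - c * τ f a = f 0 :=
        tendsto_nhds_unique h2 (by simpa [Function.comp_def] using h3)
      rw [map_zero] at h4
      rw [smul_eq_mul]
      linear_combination h4
    have hcont : Continuous (τ f) := by
      let φ : Y →+ 𝕜 := AddMonoidHom.mk' (τ f) (hτadd f)
      exact AddMonoidHomClass.continuous_of_bound φ (1 * ‖f‖) (hb f)
    have hdense : Dense Λ := hΛd.mono fun x hx => Or.inr (Or.inr hx)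
    have hcl : IsClosed {c : 𝕜 | τ f (c • a) = c • τ f a} :=
      isClosed_eq (hcont.comp (continuous_id.smul continuous_const))
        (continuous_id.smul continuous_const)
    exact hcl.closure_subset_iff.2 hΛc (hdense c)
  let B : StrongDual 𝕜 Y →ₗ[𝕜] Y →ₗ[𝕜] 𝕜 := LinearMap.mk₂ 𝕜 τ
    (fun f g a => tendsto_nhds_unique (hτ (f + g) a) (by simpa using (hτ f a).add (hτ g a)))
    (fun c f a => tendsto_nhds_unique (hτ (c • f) a) (by simpa using (hτ f a).const_mul c))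
    hτadd (fun c f a => hτsmul f c a)
  refine ⟨D, B.mkContinuous₂ 1 hb, hD, fun x hx => hsub (Or.inr hx),
    B.mkContinuous₂_norm_le zero_le_one hb, fun f hf => ?_, fun f d hd => ?_⟩
  · ext a
    change τ f a = 0
    refine tendsto_nhds_unique (hτ f a) ?_
    simp [hf _ (hzD _ a)]
  · change τ f d = f d
    exact tendsto_nhds_unique (hτ f d) ((f.continuous.tendsto d).comp (hfix d hd))

end Pool.Agent.MP_cdcde1_an

end MrgPart1

-- ======== part 2: formerly Pool.Agent.MP_cdcde1_an.Sep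
section MrgPart2

/-! Bi-annihilators and separable determination. -/

set_option autoImplicit false

open Filter Topology

namespace Pool.Agent.MP_cdcde1_an

variable {𝕜 : Type*} [RCLike 𝕜] {Y : Type*} [NormedAddCommGroup Y] [NormedSpace 𝕜 Y]

/-- The annihilator of a set of vectors. -/
def ann (𝕜 : Type*) [RCLike 𝕜] {Y : Type*} [NormedAddCommGroup Y] [NormedSpace 𝕜 Y]
    (D : Set Y) : Submodule 𝕜 (StrongDual 𝕜 Y) where
  carrier := {f | ∀ d ∈ D, f d = 0}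
  add_mem' := fun {f g} hf hg d hd => by simp [hf d hd, hg d hd]
  zero_mem' := fun d _ => rfl
  smul_mem' := fun c f hf d hd => by simp [hf d hd]

/-- The bi-annihilator of a set of vectors. -/
def biann (𝕜 : Type*) [RCLike 𝕜] {Y : Type*} [NormedAddCommGroup Y] [NormedSpace 𝕜 Y]
    (D : Set Y) : Submodule 𝕜 (StrongDual 𝕜 (StrongDual 𝕜 Y)) where
  carrier := {u | ∀ f ∈ ann 𝕜 D, u f = 0}
  add_mem' := fun {u v} hu hv f hf => by simp [hu f hf, hv f hf]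
  zero_mem' := fun f _ => rfl
  smul_mem' := fun c u hu f hf => by simp [hu f hf]

theorem mem_ann {D : Set Y} {f : StrongDual 𝕜 Y} : f ∈ ann 𝕜 D ↔ ∀ d ∈ D, f d = 0 := Iff.rfl

theorem mem_biann {D : Set Y} {u : StrongDual 𝕜 (StrongDual 𝕜 Y)} :
    u ∈ biann 𝕜 D ↔ ∀ f ∈ ann 𝕜 D, u f = 0 := Iff.rfl

theorem biann_mono {D D' : Set Y} (h : D ⊆ D') : biann 𝕜 D ≤ biann 𝕜 D' :=
  fun _ hu f hf => hu f fun d hd => hf d (h hd)

/-- The canonical embedding into the bidual. -/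
noncomputable abbrev kap (𝕜 : Type*) [RCLike 𝕜] (Y : Type*) [NormedAddCommGroup Y]
    [NormedSpace 𝕜 Y] : Y →L[𝕜] StrongDual 𝕜 (StrongDual 𝕜 Y) :=
  NormedSpace.inclusionInDoubleDual 𝕜 Y

theorem kap_apply (y : Y) (f : StrongDual 𝕜 Y) : kap 𝕜 Y y f = f y := rfl

theorem kap_mem_biann {D : Set Y} {d : Y} (hd : d ∈ D) : kap 𝕜 Y d ∈ biann 𝕜 D :=
  fun _ hf => hf d hd

theorem norm_le_on_submodule {W : Type*} [NormedAddCommGroup W] [NormedSpace 𝕜 W]
    (u : StrongDual 𝕜 W) (G : Submodule 𝕜 W) (θ : ℝ)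
    (h : ∀ g ∈ G, ‖g‖ ≤ 1 → RCLike.re (u g) ≤ θ) : ∀ g ∈ G, ‖u g‖ ≤ θ * ‖g‖ := by
  have : ‖u.comp G.subtypeL‖ ≤ θ := by
    by_contra hlt
    obtain ⟨g, hg, hg'⟩ := (u.comp G.subtypeL).exists_lt_apply_of_lt_opNorm (not_le.1 hlt)
    obtain ⟨a, ha, ha'⟩ := RCLike.exists_norm_eq_mul_self (u g)
    have h2 := h (a • (g : W)) (G.smul_mem a g.2) (by rw [norm_smul, ha, one_mul]; exact hg.le)
    have h3 : u (a • (g : W)) = (‖u g‖ : 𝕜) := by rw [ha']; simp
    rw [h3, RCLike.ofReal_re] at h2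
    have h4 : θ < ‖u g‖ := hg'
    linarith
  intro g hg
  exact ((u.comp G.subtypeL).le_opNorm ⟨g, hg⟩).trans
    (mul_le_mul_of_nonneg_right this (norm_nonneg _))

theorem exists_comb {W : Type*} [AddCommGroup W] [Module 𝕜 W] (G : Submodule 𝕜 W) {ι : Type}
    [Fintype ι] (L : ι → W →ₗ[𝕜] 𝕜) (K : W →ₗ[𝕜] 𝕜)
    (h : ∀ g ∈ G, (∀ i, L i g = 0) → K g = 0) :
    ∃ c : ι → 𝕜, ∀ g ∈ G, K g = ∑ i, c i * L i g := by
  have hK : K ∘ₗ G.subtype ∈ Submodule.span 𝕜 (Set.range fun i => L i ∘ₗ G.subtype) := by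
    refine mem_span_of_iInf_ker_le_ker fun g hg => ?_
    exact h g g.2 fun i => (Submodule.mem_iInf _).1 hg i
  obtain ⟨c, hc⟩ := (Submodule.mem_span_range_iff_exists_fun 𝕜).1 hK
  refine ⟨c, fun g hg => ?_⟩
  have := LinearMap.congr_fun hc ⟨g, hg⟩
  simpa using this.symm

theorem exists_ann_functional (D : Set Y) (u : StrongDual 𝕜 (StrongDual 𝕜 Y)) (θ : ℝ)
    (hθ : 0 ≤ θ) (hu : ∀ w ∈ biann 𝕜 D, ∀ y, θ < ‖u - w - kap 𝕜 Y y‖) (l : List Y) :
    ∃ g : StrongDual 𝕜 Y, ‖g‖ ≤ 1 ∧ g ∈ ann 𝕜 D ∧ (∀ y ∈ l, g y = 0) ∧ θ < RCLike.re (u g) := by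
  classical
  by_contra hcon
  push Not at hcon
  let G' : Submodule 𝕜 (StrongDual 𝕜 Y) := ann 𝕜 D ⊓ ann 𝕜 {y | y ∈ l}
  have hb : ∀ g : G', ‖u g‖ ≤ θ * ‖(g : StrongDual 𝕜 Y)‖ := fun g =>
    norm_le_on_submodule u G' θ (fun g hg h1 => hcon g h1 hg.1 fun y hy => hg.2 y hy) g g.2
  obtain ⟨u₁, hu₁, hu₁'⟩ := factor (E := G') (W := StrongDual 𝕜 Y) G'.subtype
    (u.toLinearMap ∘ₗ G'.subtype) θ hθ hb
  obtain ⟨c, hc⟩ := exists_comb (W := StrongDual 𝕜 Y) (ann 𝕜 D)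
    (fun i : Fin l.length => (kap 𝕜 Y (l.get i)).toLinearMap) (u - u₁).toLinearMap (by
      intro g hg hg0
      have hg' : g ∈ G' := by
        refine ⟨hg, fun y hy => ?_⟩
        obtain ⟨i, rfl⟩ := List.mem_iff_get.1 hy
        exact hg0 i
      have : u₁ g = u g := hu₁' ⟨g, hg'⟩
      simp [this])
  have hw : u - u₁ - kap 𝕜 Y (∑ i, c i • l.get i) ∈ biann 𝕜 D := by
    intro f hf
    have : (u - u₁) f = ∑ i, c i * f (l.get i) := hc f hf
    rw [sub_apply, this, kap_apply]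
    simp
  have h5 := hu _ hw (∑ i, c i • l.get i)
  have h6 : u - (u - u₁ - kap 𝕜 Y (∑ i, c i • l.get i)) - kap 𝕜 Y (∑ i, c i • l.get i) = u₁ := by
    abel
  rw [h6] at h5
  linarith

/-- Separable determination: an element of the bidual far from `biann D + Y` can be replaced by
one that lies in the bi-annihilator of a countable set. -/
theorem sep (D : Set Y) (u : StrongDual 𝕜 (StrongDual 𝕜 Y)) (hu1 : ‖u‖ ≤ 1) (θ : ℝ)
    (hθ : 0 < θ) (hu : ∀ w ∈ biann 𝕜 D, ∀ y, θ < ‖u - w - kap 𝕜 Y y‖) :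
    ∃ (D' : Set Y) (u' : StrongDual 𝕜 (StrongDual 𝕜 Y)), D'.Countable ∧ u' ∈ biann 𝕜 D' ∧
      ∀ w ∈ biann 𝕜 D, ∀ y, θ / 4 ≤ ‖u' - w - kap 𝕜 Y y‖ := by
  classical
  choose Gf hG1 hGD hG0 hGθ using exists_ann_functional D u θ hθ.le hu
  have hY : ∀ l : List (StrongDual 𝕜 Y), ∃ y : Y, ‖y‖ ≤ 1 ∧ ∀ g ∈ l, ‖g y - u g‖ < θ / 2 := by
    intro l
    obtain ⟨y, hy, h⟩ := gold u hu1 (fun i : Fin l.length => l.get i) (θ / 2) (by positivity)
    refine ⟨y, hy, fun g hg => ?_⟩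
    obtain ⟨i, rfl⟩ := List.mem_iff_get.1 hg
    exact h i
  choose Yf hY1 hYg using hY
  let nx : List Y × List (StrongDual 𝕜 Y) → List Y × List (StrongDual 𝕜 Y) :=
    fun s => (Yf (Gf s.1 :: s.2) :: s.1, Gf s.1 :: s.2)
  let s : ℕ → List Y × List (StrongDual 𝕜 Y) := fun n => nx^[n] ([], [])
  have hs : ∀ n, s (n + 1) = nx (s n) := fun n => Function.iterate_succ_apply' _ _ _
  let g : ℕ → StrongDual 𝕜 Y := fun n => Gf (s n).1
  let y : ℕ → Y := fun n => Yf (g n :: (s n).2)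
  have hy : ∀ n i, i < n → y i ∈ (s n).1 := by
    intro n
    induction n with
    | zero => intro i hi; omega
    | succ n ih =>
      intro i hi
      rw [hs n]
      rcases Nat.lt_succ_iff_lt_or_eq.1 hi with h | rfl
      · exact List.mem_cons_of_mem _ (ih i h)
      · exact List.mem_cons_self
  have hg : ∀ n j, j < n → g j ∈ (s n).2 := by
    intro n
    induction n with
    | zero => intro i hi; omega
    | succ n ih =>
      intro i hi
      rw [hs n]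
      rcases Nat.lt_succ_iff_lt_or_eq.1 hi with h | rfl
      · exact List.mem_cons_of_mem _ (ih i h)
      · exact List.mem_cons_self
  have hzero : ∀ i j, i < j → g j (y i) = 0 := fun i j h => hG0 _ _ (hy j i h)
  have hbig : ∀ i j, j ≤ i → θ / 2 ≤ RCLike.re (g j (y i)) := by
    intro i j h
    have hm : g j ∈ g i :: (s i).2 := by
      rcases h.lt_or_eq with h | rfl
      · exact List.mem_cons_of_mem _ (hg i j h)
      · exact List.mem_cons_self
    have h1 := hYg _ _ hm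
    have h2 := hGθ (s j).1
    have h3 : RCLike.re (u (g j) - g j (y i)) ≤ ‖g j (y i) - u (g j)‖ := by
      rw [norm_sub_rev]; exact RCLike.re_le_norm _
    rw [map_sub] at h3
    change θ < RCLike.re (u (g j)) at h2
    change ‖g j (y i) - u (g j)‖ < θ / 2 at h1
    linarith
  let U : Ultrafilter ℕ := Ultrafilter.of atTop
  have hU : (U : Filter ℕ) ≤ atTop := Ultrafilter.of_le _
  obtain ⟨u', -, hu'⟩ := ulim U (fun i => kap 𝕜 Y (y i)) 1 zero_le_one
    fun i => (NormedSpace.double_dual_bound 𝕜 Y _).trans (hY1 _)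
  obtain ⟨g', hg'1, hg'⟩ := ulim U g 1 zero_le_one fun j => hG1 _
  have hu'm : u' ∈ biann 𝕜 (Set.range y) := by
    intro f hf
    refine tendsto_nhds_unique (hu' f) ?_
    simp [hf _ ⟨_, rfl⟩]
  have hg'y : g' ∈ ann 𝕜 (Set.range y) := by
    rintro _ ⟨i, rfl⟩
    refine tendsto_nhds_unique (hg' (y i)) (Tendsto.mono_left ?_ hU)
    refine tendsto_const_nhds.congr' ?_
    filter_upwards [eventually_gt_atTop i] with j hj using (hzero i j hj).symm
  have hg'D : g' ∈ ann 𝕜 D := by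
    intro d hd
    refine tendsto_nhds_unique (hg' d) ?_
    have : ∀ j, g j d = 0 := fun j => hGD _ d hd
    simp [this]
  have hu'g : ∀ j, θ / 2 ≤ RCLike.re (u' (g j)) := by
    intro j
    refine ge_of_tendsto ((RCLike.continuous_re.tendsto _).comp (hu' (g j))) ?_
    filter_upwards [hU (eventually_ge_atTop j)] with i hi using hbig i j hi
  refine ⟨Set.range y, u', Set.countable_range y, hu'm, fun w hw x => ?_⟩
  have key : ∀ j, θ / 2 - ‖g j x - g' x‖ ≤ 2 * ‖u' - w - kap 𝕜 Y x‖ := by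
    intro j
    have h1 : (u' - w - kap 𝕜 Y x) (g j - g') = u' (g j) - (g j x - g' x) := by
      have h2 : w (g j - g') = 0 := hw _ ((ann 𝕜 D).sub_mem (hGD _) hg'D)
      have h3 : u' g' = 0 := hu'm _ hg'y
      rw [sub_apply, sub_apply, h2, map_sub, h3, kap_apply]
      simp
    have h4 : ‖(u' - w - kap 𝕜 Y x) (g j - g')‖ ≤ ‖u' - w - kap 𝕜 Y x‖ * 2 := by
      refine (ContinuousLinearMap.le_opNorm _ _).trans (mul_le_mul_of_nonneg_left ?_ (norm_nonneg _))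
      have := hG1 (s j).1
      change ‖g j‖ ≤ 1 at this
      linarith [norm_sub_le (g j) g']
    have h5 : RCLike.re (u' (g j)) ≤ ‖u' (g j)‖ := RCLike.re_le_norm _
    have h6 : ‖u' (g j)‖ - ‖g j x - g' x‖ ≤ ‖u' (g j) - (g j x - g' x)‖ := norm_sub_norm_le _ _
    rw [h1] at h4
    linarith [hu'g j]
  have hlim : Tendsto (fun j => θ / 2 - ‖g j x - g' x‖) U (𝓝 (θ / 2 - ‖g' x - g' x‖)) :=
    tendsto_const_nhds.sub ((hg' x).sub_const _).norm
  have := le_of_tendsto' hlim key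
  simp only [sub_self, norm_zero, sub_zero] at this
  linarith

/-- A countable family of functionals can be annihilated at the cost of an element of the
bi-annihilator of a fixed countable set. -/
theorem exists_kill (f : ℕ → StrongDual 𝕜 Y) :
    ∃ D : Set Y, D.Countable ∧ ∀ u : StrongDual 𝕜 (StrongDual 𝕜 Y),
      ∃ u' : StrongDual 𝕜 (StrongDual 𝕜 Y), (∀ t, u' (f t) = 0) ∧ u - u' ∈ biann 𝕜 D := by
  let F : Submodule 𝕜 (StrongDual 𝕜 Y) := Submodule.span 𝕜 (Set.range f)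
  have hF : TopologicalSpace.IsSeparable (F : Set (StrongDual 𝕜 Y)) :=
    (Set.countable_range f).isSeparable.span
  obtain ⟨C, hC, hFC⟩ := hF
  have hn : ∀ c : StrongDual 𝕜 Y, ∃ y : Y, ‖y‖ ≤ 1 ∧ ‖c‖ ≤ 2 * ‖c y‖ := by
    intro c
    by_cases hc : ‖c‖ = 0
    · exact ⟨0, by simp, by simp [hc]⟩
    · have hpos : 0 < ‖c‖ := lt_of_le_of_ne (norm_nonneg _) (Ne.symm hc)
      obtain ⟨y, hy, hy'⟩ := c.exists_lt_apply_of_lt_opNorm (r := ‖c‖ / 2) (by linarith)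
      exact ⟨y, hy.le, by linarith⟩
  choose yc hy1 hy2 using hn
  refine ⟨yc '' C, hC.image _, fun u => ?_⟩
  have hang : ∀ h ∈ F, ∀ g ∈ ann 𝕜 (yc '' C), ‖g‖ ≤ 3 * ‖h + g‖ := by
    intro h hh g hg
    have hcl : IsClosed {h : StrongDual 𝕜 Y | ‖h‖ ≤ 2 * ‖h + g‖} :=
      isClosed_le continuous_norm (by fun_prop)
    have hsub : C ⊆ {h : StrongDual 𝕜 Y | ‖h‖ ≤ 2 * ‖h + g‖} := by
      intro c hc
      have h1 : (c + g) (yc c) = c (yc c) := by simp [hg _ ⟨c, hc, rfl⟩]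
      have h2 : ‖(c + g) (yc c)‖ ≤ ‖c + g‖ := (c + g).unit_le_opNorm _ (hy1 c)
      have h3 := hy2 c
      rw [h1] at h2
      change ‖c‖ ≤ 2 * ‖c + g‖
      linarith
    have h4 : ‖h‖ ≤ 2 * ‖h + g‖ := hcl.closure_subset_iff.2 hsub (hFC hh)
    have h5 : ‖g‖ ≤ ‖h + g‖ + ‖h‖ := by
      have := norm_sub_le (h + g) h
      simpa using this
    linarith
  let Q : F × ann 𝕜 (yc '' C) →ₗ[𝕜] StrongDual 𝕜 Y :=
    F.subtype.coprod (ann 𝕜 (yc '' C)).subtype
  let φ : F × ann 𝕜 (yc '' C) →ₗ[𝕜] 𝕜 :=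
    u.toLinearMap ∘ₗ (ann 𝕜 (yc '' C)).subtype ∘ₗ LinearMap.snd 𝕜 _ _
  obtain ⟨u', -, hu'⟩ := factor (E := F × ann 𝕜 (yc '' C)) (W := StrongDual 𝕜 Y) Q φ (‖u‖ * 3) (by positivity) (by
    rintro ⟨h, g⟩
    have h1 := hang h h.2 g g.2
    calc ‖φ (h, g)‖ = ‖u g‖ := rfl
      _ ≤ ‖u‖ * ‖(g : StrongDual 𝕜 Y)‖ := u.le_opNorm _
      _ ≤ ‖u‖ * (3 * ‖(h : StrongDual 𝕜 Y) + g‖) := by gcongr
      _ = ‖u‖ * 3 * ‖Q (h, g)‖ := by simp [Q, mul_assoc])
  refine ⟨u', fun t => ?_, fun g hg => ?_⟩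
  · have := hu' (⟨f t, Submodule.subset_span ⟨t, rfl⟩⟩, 0)
    simpa [Q, φ] using this
  · have := hu' (0, ⟨g, hg⟩)
    simp only [Q, φ, LinearMap.coprod_apply, map_zero, zero_add, Submodule.subtype_apply,
      LinearMap.coe_comp, Function.comp_apply, LinearMap.snd_apply,
      ContinuousLinearMap.coe_coe] at this
    simp [this]

end Pool.Agent.MP_cdcde1_an

end MrgPart2

-- ======== part 3: formerly Pool.Agent.MP_cdcde1_an.Reduce
section MrgPart3

/-! Separable reduction. -/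

set_option autoImplicit false
set_option maxSynthPendingDepth 3

open Filter Topology

namespace Pool.Agent.MP_cdcde1_an

variable {𝕜 : Type*} [RCLike 𝕜] {Y : Type*} [NormedAddCommGroup Y] [NormedSpace 𝕜 Y]
  {L : Type*} [NormedAddCommGroup L] [NormedSpace 𝕜 L]

/-- `q` identifies the quotient of the bidual of `Y` by `Y` with a dense subspace of `X`. -/
structure Rep (X : Submodule 𝕜 L) (q : StrongDual 𝕜 (StrongDual 𝕜 Y) →L[𝕜] L) (M : ℝ) :
    Prop where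
  nonneg : 0 ≤ M
  mem : ∀ u, q u ∈ X
  dense : (X : Set L) ⊆ closure (Set.range q)
  ker : ∀ y, q (kap 𝕜 Y y) = 0
  low : ∀ u ε, 0 < ε → ∃ y, ‖u - kap 𝕜 Y y‖ ≤ M * ‖q u‖ + ε

theorem Rep.bound {X : Submodule 𝕜 L} {q : StrongDual 𝕜 (StrongDual 𝕜 Y) →L[𝕜] L} {M : ℝ}
    (hq : Rep X q M) {W : Type*} [NormedAddCommGroup W] [NormedSpace 𝕜 W]
    (ψ : StrongDual 𝕜 (StrongDual 𝕜 Y) →L[𝕜] W) (hψ : ∀ y, ψ (kap 𝕜 Y y) = 0)
    (u : StrongDual 𝕜 (StrongDual 𝕜 Y)) : ‖ψ u‖ ≤ ‖ψ‖ * M * ‖q u‖ := by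
  refine le_of_forall_pos_le_add fun ε hε => ?_
  obtain ⟨y, hy⟩ := hq.low u (ε / (‖ψ‖ + 1)) (by positivity)
  have h1 : ψ u = ψ (u - kap 𝕜 Y y) := by rw [map_sub, hψ, sub_zero]
  have h2 : ‖ψ‖ * (ε / (‖ψ‖ + 1)) ≤ ε := by
    rw [mul_div_assoc', div_le_iff₀ (by positivity)]
    nlinarith [norm_nonneg ψ]
  calc ‖ψ u‖ = ‖ψ (u - kap 𝕜 Y y)‖ := by rw [h1]
    _ ≤ ‖ψ‖ * ‖u - kap 𝕜 Y y‖ := ψ.le_opNorm _
    _ ≤ ‖ψ‖ * (M * ‖q u‖ + ε / (‖ψ‖ + 1)) := by gcongr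
    _ = ‖ψ‖ * M * ‖q u‖ + ‖ψ‖ * (ε / (‖ψ‖ + 1)) := by ring
    _ ≤ _ := by linarith

/-- Elements lying in the bi-annihilator of some countable set. -/
def Sig (𝕜 : Type*) [RCLike 𝕜] (Y : Type*) [NormedAddCommGroup Y] [NormedSpace 𝕜 Y] :
    Submodule 𝕜 (StrongDual 𝕜 (StrongDual 𝕜 Y)) where
  carrier := {u | ∃ D : Set Y, D.Countable ∧ u ∈ biann 𝕜 D}
  add_mem' := by
    rintro u v ⟨D, hD, hu⟩ ⟨D', hD', hv⟩
    exact ⟨D ∪ D', hD.union hD', (biann 𝕜 _).add_mem (biann_mono Set.subset_union_left hu)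
      (biann_mono Set.subset_union_right hv)⟩
  zero_mem' := ⟨∅, Set.countable_empty, (biann 𝕜 _).zero_mem⟩
  smul_mem' := by
    rintro c u ⟨D, hD, hu⟩
    exact ⟨D, hD, (biann 𝕜 _).smul_mem c hu⟩

theorem step_one (q : StrongDual 𝕜 (StrongDual 𝕜 Y) →L[𝕜] L) (X₀ : Set L)
    (hX₀ : TopologicalSpace.IsSeparable X₀) :
    ∃ D : Set Y, D.Countable ∧ ∀ u ∈ Sig 𝕜 Y, ∀ x ∈ X₀, ∀ ε, 0 < ε →
      ∃ w ∈ biann 𝕜 D, ‖q u - q w‖ ≤ 2 * ‖q u - x‖ + ε := by
  obtain ⟨C, hC, hXC⟩ := hX₀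
  have h : ∀ p : L × ℚ, ∃ D : Set Y, D.Countable ∧
      ((∃ u ∈ Sig 𝕜 Y, ‖q u - p.1‖ < p.2) → ∃ w ∈ biann 𝕜 D, ‖q w - p.1‖ < p.2) := by
    intro p
    by_cases hp : ∃ u ∈ Sig 𝕜 Y, ‖q u - p.1‖ < p.2
    · obtain ⟨u, ⟨D, hD, hu⟩, hlt⟩ := hp
      exact ⟨D, hD, fun _ => ⟨u, hu, hlt⟩⟩
    · exact ⟨∅, Set.countable_empty, fun h => absurd h hp⟩
  choose Dp hDc hDp using h
  refine ⟨⋃ p ∈ C ×ˢ (Set.univ : Set ℚ), Dp p,
    (hC.prod Set.countable_univ).biUnion fun p _ => hDc p, fun u hu x hx ε hε => ?_⟩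
  obtain ⟨c, hc, hxc⟩ := Metric.mem_closure_iff.1 (hXC hx) (ε / 4) (by positivity)
  obtain ⟨r, hr1, hr2⟩ := exists_rat_btwn (show ‖q u - x‖ + ε / 4 < ‖q u - x‖ + ε / 2 by linarith)
  have h1 : ‖q u - c‖ < r := by
    rw [dist_eq_norm] at hxc
    have := norm_sub_le_norm_sub_add_norm_sub (q u) x c
    linarith
  obtain ⟨w, hw, hwc⟩ := hDp (c, r) ⟨u, hu, h1⟩
  refine ⟨w, biann_mono (Set.subset_biUnion_of_mem (u := Dp) (Set.mk_mem_prod hc (Set.mem_univ r)))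
    hw, ?_⟩
  have h2 := norm_sub_le_norm_sub_add_norm_sub (q u) c (q w)
  rw [norm_sub_rev c] at h2
  change ‖q w - c‖ < r at hwc
  linarith

/-- The adjoint of an operator. -/
noncomputable def adj {E F : Type*} [NormedAddCommGroup E] [NormedSpace 𝕜 E]
    [NormedAddCommGroup F] [NormedSpace 𝕜 F] (T : E →L[𝕜] F) :
    StrongDual 𝕜 F →L[𝕜] StrongDual 𝕜 E :=
  (ContinuousLinearMap.compL 𝕜 E F 𝕜).flip T

theorem adj_apply {E F : Type*} [NormedAddCommGroup E] [NormedSpace 𝕜 E]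
    [NormedAddCommGroup F] [NormedSpace 𝕜 F] (T : E →L[𝕜] F) (f : StrongDual 𝕜 F) (x : E) :
    adj T f x = f (T x) := rfl

theorem reduce {X : Submodule 𝕜 L} {q : StrongDual 𝕜 (StrongDual 𝕜 Y) →L[𝕜] L} {M : ℝ}
    (hq : Rep X q M) (e : ℕ → StrongDual 𝕜 L)
    (hnorm : ∀ (x : L) (r : ℝ), 0 ≤ r → (∀ t, ‖e t x‖ ≤ r) → ‖x‖ ≤ r) (he : ∀ t, ‖e t‖ ≤ 1)
    (X₀ : Set L) (hX₀ : TopologicalSpace.IsSeparable X₀)
    (H : ∀ (V : Submodule 𝕜 L) (K : ℝ), 0 ≤ K → V ≤ X → (∀ x ∈ V, ∀ x₀ ∈ X₀, ‖x‖ ≤ K * ‖x - x₀‖) →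
      TopologicalSpace.IsSeparable (V : Set L)) :
    ∃ D : Set Y, D.Countable ∧ (X : Set L) ⊆ closure (q '' (biann 𝕜 D : Set _)) := by
  obtain ⟨D₀, hD₀, hstep⟩ := step_one q X₀ hX₀
  obtain ⟨D, R, hD, hD₀D, hR, hRann, hRD⟩ := exists_ideal (𝕜 := 𝕜) D₀ hD₀
  let P : StrongDual 𝕜 (StrongDual 𝕜 Y) →L[𝕜] StrongDual 𝕜 (StrongDual 𝕜 Y) := adj R
  have hP : ∀ u f, P u f = u (R f) := fun _ _ => rfl
  have hPn : ∀ u, ‖P u‖ ≤ ‖u‖ := fun u => by
    refine ContinuousLinearMap.opNorm_le_bound _ (norm_nonneg _) fun f => ?_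
    rw [hP]
    refine (u.le_opNorm _).trans (mul_le_mul_of_nonneg_left ?_ (norm_nonneg _))
    exact (R.le_opNorm f).trans (by nlinarith [norm_nonneg f])
  have hPmem : ∀ u, P u ∈ biann 𝕜 D := fun u f hf => by rw [hP, hRann f hf, map_zero]
  have hPfix : ∀ u ∈ biann 𝕜 D, P u = u := fun u hu => by
    ext f
    have : u (f - R f) = 0 := hu _ fun d hd => by simp [hRD f d hd]
    rw [map_sub] at this
    rw [hP]
    linear_combination -this
  let φ : ℕ → StrongDual 𝕜 (StrongDual 𝕜 (StrongDual 𝕜 Y)) := fun t => (e t).comp q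
  have hφ : ∀ t u, ‖φ t u‖ ≤ ‖q‖ * ‖u‖ := fun t u =>
    ((e t).le_opNorm _).trans ((mul_le_of_le_one_left (norm_nonneg _) (he t)).trans (q.le_opNorm u))
  let f : ℕ → StrongDual 𝕜 Y := fun t => ((φ t).comp P).comp (kap 𝕜 Y)
  have hf : ∀ t y, f t y = φ t (P (kap 𝕜 Y y)) := fun _ _ => rfl
  have hfn : ∀ t, ‖f t‖ ≤ ‖q‖ := fun t => by
    refine ContinuousLinearMap.opNorm_le_bound _ (norm_nonneg _) fun y => ?_
    rw [hf]
    exact (hφ t _).trans (mul_le_mul_of_nonneg_left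
      ((hPn _).trans (NormedSpace.double_dual_bound 𝕜 Y y)) (norm_nonneg _))
  have hφκ : ∀ t y, φ t (kap 𝕜 Y y) = 0 := fun t y => by
    change e t (q _) = 0
    rw [hq.ker, map_zero]
  have hfD : ∀ t, f t ∈ ann 𝕜 D := fun t d hd => by
    rw [hf, hPfix _ (kap_mem_biann hd), hφκ]
  let ψ : ℕ → StrongDual 𝕜 (StrongDual 𝕜 (StrongDual 𝕜 Y)) :=
    fun t => φ t - (φ t).comp P + kap 𝕜 (StrongDual 𝕜 Y) (f t)
  have hψ : ∀ t u, ψ t u = φ t u - φ t (P u) + u (f t) := fun _ _ => rfl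
  have hψκ : ∀ t y, ψ t (kap 𝕜 Y y) = 0 := fun t y => by
    rw [hψ, hφκ, kap_apply, hf]; ring
  have hψD : ∀ t, ∀ w ∈ biann 𝕜 D, ψ t w = 0 := fun t w hw => by
    rw [hψ, hPfix w hw, hw _ (hfD t)]; ring
  have hψn : ∀ t, ‖ψ t‖ ≤ 3 * ‖q‖ := fun t => by
    refine ContinuousLinearMap.opNorm_le_bound _ (by positivity) fun u => ?_
    rw [hψ]
    have h1 := hφ t u
    have h2 : ‖φ t (P u)‖ ≤ ‖q‖ * ‖u‖ :=
      (hφ t _).trans (mul_le_mul_of_nonneg_left (hPn u) (norm_nonneg _))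
    have h3 : ‖u (f t)‖ ≤ ‖q‖ * ‖u‖ := by
      rw [mul_comm]
      exact (u.le_opNorm _).trans (mul_le_mul_of_nonneg_left (hfn t) (norm_nonneg _))
    have h4 := norm_add_le (φ t u - φ t (P u)) (u (f t))
    have h5 := norm_sub_le (φ t u) (φ t (P u))
    linarith
  let V : Submodule 𝕜 (StrongDual 𝕜 (StrongDual 𝕜 Y)) :=
    { carrier := {v | v ∈ Sig 𝕜 Y ∧ P v = 0 ∧ ∀ t, v (f t) = 0}
      add_mem' := fun {a b} ha hb => ⟨(Sig 𝕜 Y).add_mem ha.1 hb.1,
        by rw [map_add, ha.2.1, hb.2.1, add_zero], fun t => by simp [ha.2.2 t, hb.2.2 t]⟩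
      zero_mem' := ⟨(Sig 𝕜 Y).zero_mem, map_zero _, fun _ => rfl⟩
      smul_mem' := fun c a ha => ⟨(Sig 𝕜 Y).smul_mem c ha.1,
        by rw [map_smul, ha.2.1, smul_zero], fun t => by simp [ha.2.2 t]⟩ }
  have hM := hq.nonneg
  have hV : ∀ v ∈ V, ∀ x₀ ∈ X₀, ‖q v‖ ≤ 3 * ‖q‖ * M * 2 * ‖q v - x₀‖ := by
    intro v hv x₀ hx₀
    refine hnorm _ _ (by positivity) fun t => ?_
    have h1 : e t (q v) = ψ t v := by
      rw [hψ, hv.2.1, hv.2.2 t, map_zero]
      simp [φ]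
    rw [h1]
    refine le_of_forall_pos_le_add fun ε hε => ?_
    obtain ⟨w, hw, hvw⟩ := hstep v hv.1 x₀ hx₀ (ε / (3 * ‖q‖ * M + 1)) (by positivity)
    have h2 : ψ t v = ψ t (v - w) := by rw [map_sub, hψD t w (biann_mono hD₀D hw), sub_zero]
    have h3 := hq.bound (ψ t) (hψκ t) (v - w)
    have h4 : 3 * ‖q‖ * M * (ε / (3 * ‖q‖ * M + 1)) ≤ ε := by
      rw [mul_div_assoc', div_le_iff₀ (by positivity)]
      nlinarith [show 0 ≤ 3 * ‖q‖ * M by positivity]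
    rw [map_sub q] at h3
    calc ‖ψ t v‖ = ‖ψ t (v - w)‖ := by rw [h2]
      _ ≤ ‖ψ t‖ * M * ‖q v - q w‖ := h3
      _ ≤ 3 * ‖q‖ * M * (2 * ‖q v - x₀‖ + ε / (3 * ‖q‖ * M + 1)) := by gcongr; exact hψn t
      _ = 3 * ‖q‖ * M * 2 * ‖q v - x₀‖ + 3 * ‖q‖ * M * (ε / (3 * ‖q‖ * M + 1)) := by ring
      _ ≤ _ := by linarith
  have hsep : TopologicalSpace.IsSeparable ((V.map q.toLinearMap : Submodule 𝕜 L) : Set L) := by
    refine H _ (3 * ‖q‖ * M * 2) (by positivity) ?_ ?_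
    · rintro _ ⟨v, -, rfl⟩
      exact hq.mem v
    · rintro _ ⟨v, hv, rfl⟩ x₀ hx₀
      exact hV v hv x₀ hx₀
  obtain ⟨D₁, hD₁, hkill⟩ := exists_kill f
  obtain ⟨D₂, hD₂, hstep₂⟩ := step_one q _ hsep
  let D₃ : Set Y := D ∪ D₁ ∪ D₂
  have hD₃ : D₃.Countable := (hD.union hD₁).union hD₂
  have hs1 : D ⊆ D₃ := Set.subset_union_left.trans Set.subset_union_left
  have hs2 : D₁ ⊆ D₃ := Set.subset_union_right.trans Set.subset_union_left
  have hs3 : D₂ ⊆ D₃ := Set.subset_union_right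
  have hSig : ∀ u ∈ Sig 𝕜 Y, ∀ ε, 0 < ε → ∃ w ∈ biann 𝕜 D₃, ‖q u - q w‖ ≤ ε := by
    intro u hu ε hε
    obtain ⟨u', hu', huu'⟩ := hkill u
    have h1 : u - (u' - P u') ∈ biann 𝕜 D₃ := by
      have : u - (u' - P u') = (u - u') + P u' := by abel
      rw [this]
      exact (biann 𝕜 D₃).add_mem (biann_mono hs2 huu') (biann_mono hs1 (hPmem u'))
    have h2 : u' - P u' ∈ V := by
      refine ⟨?_, ?_, fun t => ?_⟩
      · have : u' - P u' = u - (u - (u' - P u')) := by abel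
        rw [this]
        exact (Sig 𝕜 Y).sub_mem hu ⟨D₃, hD₃, h1⟩
      · rw [map_sub, hPfix _ (hPmem u'), sub_self]
      · rw [sub_apply, hu' t, hPmem u' _ (hfD t), sub_self]
    obtain ⟨w, hw, hw'⟩ := hstep₂ _ h2.1 (q (u' - P u')) ⟨_, h2, rfl⟩ ε hε
    refine ⟨u - (u' - P u') + w, (biann 𝕜 D₃).add_mem h1 (biann_mono hs3 hw), ?_⟩
    have h3 : q u - q (u - (u' - P u') + w) = q (u' - P u') - q w := by
      simp only [map_add, map_sub]; abel
    rw [h3]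
    simpa using hw'
  have hall : ∀ u, ‖u‖ ≤ 1 → ∀ θ, 0 < θ →
      ∃ w ∈ biann 𝕜 D₃, ∃ y, ‖u - w - kap 𝕜 Y y‖ ≤ θ := by
    intro u hu θ hθ
    by_contra hcon
    push Not at hcon
    obtain ⟨D', u', hD', hu', hfar⟩ := sep D₃ u hu θ hθ hcon
    obtain ⟨w, hw, hw'⟩ := hSig u' ⟨D', hD', hu'⟩ (θ / (16 * (M + 1))) (by positivity)
    obtain ⟨y, hy⟩ := hq.low (u' - w) (θ / 16) (by positivity)
    have h1 := hfar w hw y
    rw [map_sub] at hy
    have h2 : M * ‖q u' - q w‖ ≤ θ / 16 := by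
      calc M * ‖q u' - q w‖ ≤ M * (θ / (16 * (M + 1))) := by gcongr
        _ ≤ (M + 1) * (θ / (16 * (M + 1))) := by gcongr; linarith
        _ = θ / 16 := by field_simp
    linarith
  refine ⟨D₃, hD₃, hq.dense.trans (closure_minimal ?_ isClosed_closure)⟩
  rintro _ ⟨u, rfl⟩
  rw [Metric.mem_closure_iff]
  intro ε hε
  let c : ℝ := ‖u‖ + 1
  have hc : 0 < c := by positivity
  have hcK : (c : 𝕜) ≠ 0 := by exact_mod_cast hc.ne'
  obtain ⟨w, hw, y, hy⟩ := hall ((c : 𝕜)⁻¹ • u) (by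
    rw [norm_smul, norm_inv, RCLike.norm_ofReal, abs_of_pos hc, inv_mul_le_iff₀ hc]
    simp [c]) (ε / (2 * (c * (‖q‖ + 1)))) (by positivity)
  refine ⟨q ((c : 𝕜) • w), ⟨_, (biann 𝕜 D₃).smul_mem _ hw, rfl⟩, ?_⟩
  have h1 : q u - q ((c : 𝕜) • w) = (c : 𝕜) • q ((c : 𝕜)⁻¹ • u - w - kap 𝕜 Y y) := by
    simp only [map_sub, map_smul, hq.ker, sub_zero, smul_sub, smul_smul, mul_inv_cancel₀ hcK,
      one_smul]
  rw [dist_eq_norm, h1, norm_smul, RCLike.norm_ofReal, abs_of_pos hc]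
  calc c * ‖q ((c : 𝕜)⁻¹ • u - w - kap 𝕜 Y y)‖
      ≤ c * (‖q‖ * ‖(c : 𝕜)⁻¹ • u - w - kap 𝕜 Y y‖) := by gcongr; exact q.le_opNorm _
    _ ≤ c * ((‖q‖ + 1) * (ε / (2 * (c * (‖q‖ + 1))))) := by gcongr; linarith
    _ = ε / 2 := by field_simp
    _ < ε := by linarith

/-- Transfer of a representation to a subspace. -/
theorem Rep.transfer {X : Submodule 𝕜 L} {q : StrongDual 𝕜 (StrongDual 𝕜 Y) →L[𝕜] L} {M : ℝ}
    (hq : Rep X q M) {Z : Type*} [NormedAddCommGroup Z] [NormedSpace 𝕜 Z] (j : Z →ₗᵢ[𝕜] Y)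
    (hj : (X : Set L) ⊆ closure (q '' (biann 𝕜 (Set.range j) : Set _))) :
    Rep X (q.comp (adj (adj j.toContinuousLinearMap))) (2 * M) := by
  let J : StrongDual 𝕜 (StrongDual 𝕜 Z) →L[𝕜] StrongDual 𝕜 (StrongDual 𝕜 Y) :=
    adj (adj j.toContinuousLinearMap)
  have hJ : ∀ u f, J u f = u (adj j.toContinuousLinearMap f) := fun _ _ => rfl
  have hext : ∀ g : StrongDual 𝕜 Z, ∃ f : StrongDual 𝕜 Y, ‖f‖ ≤ ‖g‖ ∧
      adj j.toContinuousLinearMap f = g := by
    intro g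
    obtain ⟨f, hf, hf'⟩ := factor (E := Z) (W := Y) j.toLinearMap g.toLinearMap ‖g‖
      (norm_nonneg _) fun z => by simpa using g.le_opNorm z
    exact ⟨f, hf, ContinuousLinearMap.ext fun z => hf' z⟩
  have hJκ : ∀ z, J (kap 𝕜 Z z) = kap 𝕜 Y (j z) := fun z => rfl
  have hJn : ∀ u, ‖u‖ ≤ ‖J u‖ := fun u => by
    refine ContinuousLinearMap.opNorm_le_bound _ (norm_nonneg _) fun g => ?_
    obtain ⟨f, hf, rfl⟩ := hext g
    rw [← hJ]
    exact ((J u).le_opNorm f).trans (mul_le_mul_of_nonneg_left hf (norm_nonneg _))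
  have hJmem : ∀ u, J u ∈ biann 𝕜 (Set.range j) := fun u f hf => by
    have : adj j.toContinuousLinearMap f = 0 := by
      ext z
      exact hf _ ⟨z, rfl⟩
    rw [hJ, this, map_zero]
  have hJsurj : ∀ w ∈ biann 𝕜 (Set.range j), ∃ u, J u = w := by
    intro w hw
    obtain ⟨u, -, hu⟩ := factor (E := StrongDual 𝕜 Y) (W := StrongDual 𝕜 Z)
      (adj j.toContinuousLinearMap).toLinearMap w.toLinearMap ‖w‖ (norm_nonneg _) (fun f => by
        obtain ⟨f', hf', h⟩ := hext (adj j.toContinuousLinearMap f)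
        have h1 : w (f - f') = 0 := by
          refine hw _ ?_
          rintro _ ⟨z, rfl⟩
          have := DFunLike.congr_fun h z
          rw [adj_apply, adj_apply] at this
          rw [sub_apply]
          exact sub_eq_zero.2 this.symm
        rw [map_sub, sub_eq_zero] at h1
        change ‖w f‖ ≤ ‖w‖ * ‖adj j.toContinuousLinearMap f‖
        rw [h1]
        exact (w.le_opNorm _).trans (mul_le_mul_of_nonneg_left hf' (norm_nonneg _)))
    exact ⟨u, ContinuousLinearMap.ext fun f => hu f⟩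
  refine ⟨by linarith [hq.nonneg], fun u => hq.mem _, hj.trans (closure_mono ?_),
    fun z => hq.ker (j z), fun u ε hε => ?_⟩
  · rintro _ ⟨w, hw, rfl⟩
    obtain ⟨u, rfl⟩ := hJsurj w hw
    exact ⟨u, rfl⟩
  · obtain ⟨y, hy⟩ := hq.low (J u) (ε / 3) (by positivity)
    obtain ⟨z, hz⟩ : ∃ z, ‖y - j z‖ ≤ ‖J u - kap 𝕜 Y y‖ + ε / 3 := by
      let S : Submodule 𝕜 Y := LinearMap.range j.toLinearMap
      obtain ⟨g, hg, hgy⟩ := exists_dual_vector'' 𝕜 (S.mkQ y)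
      let f : StrongDual 𝕜 Y := g.comp S.mkQL
      have hfS : f ∈ ann 𝕜 (Set.range j) := by
        rintro _ ⟨z, rfl⟩
        have : S.mkQ (j z) = 0 := (Submodule.Quotient.mk_eq_zero S).2 ⟨z, rfl⟩
        change g (S.mkQ (j z)) = 0
        rw [this, map_zero]
      have hf1 : ‖f‖ ≤ 1 := by
        refine ContinuousLinearMap.opNorm_le_bound _ zero_le_one fun x => ?_
        exact (g.le_opNorm _).trans
          (mul_le_mul hg (Submodule.Quotient.norm_mk_le S x) (norm_nonneg _) zero_le_one)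
      have h1 : ‖S.mkQ y‖ ≤ ‖J u - kap 𝕜 Y y‖ := by
        have h2 : (J u - kap 𝕜 Y y) f = -(‖S.mkQ y‖ : 𝕜) := by
          rw [sub_apply, hJmem u f hfS, kap_apply, ← hgy, zero_sub]
          rfl
        have h3 := (J u - kap 𝕜 Y y).unit_le_opNorm f hf1
        rw [h2] at h3
        simpa using h3
      obtain ⟨m, hm, hm'⟩ := Submodule.Quotient.norm_mk_lt (S.mkQ y) (ε := ε / 3) (by positivity)
      obtain ⟨z, hz⟩ : y - m ∈ S := by
        rw [← Submodule.Quotient.eq]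
        exact hm.symm
      refine ⟨z, ?_⟩
      have : y - j z = m := by
        change j z = y - m at hz
        rw [hz]; abel
      rw [this]
      linarith
    refine ⟨z, (hJn _).trans ?_⟩
    rw [map_sub, hJκ]
    have h4 : J u - kap 𝕜 Y (j z) = (J u - kap 𝕜 Y y) + kap 𝕜 Y (y - j z) := by
      rw [map_sub]; abel
    have h5 := NormedSpace.double_dual_bound 𝕜 Y (y - j z)
    have h6 := norm_add_le (J u - kap 𝕜 Y y) (kap 𝕜 Y (y - j z))
    rw [h4]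
    change _ ≤ 2 * M * ‖q (J u)‖ + ε
    linarith

end Pool.Agent.MP_cdcde1_an

end MrgPart3

-- ======== part 4: formerly Pool.Agent.MP_cdcde1_an.Space
section MrgPart4

/-! The spaces spanned by indicator functions of an almost disjoint family. -/

set_option autoImplicit false
set_option maxSynthPendingDepth 3

open Filter Topology

namespace Pool.Agent.MP_cdcde1_an

/-- Bounded scalar sequences. -/
abbrev Linf (𝕜 : Type*) [RCLike 𝕜] := BoundedContinuousFunction ℕ 𝕜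

variable {𝕜 : Type*} [RCLike 𝕜]

/-- A bounded sequence as an element of `Linf`. -/
noncomputable def mkL (f : ℕ → 𝕜) (C : ℝ) (h : ∀ n, ‖f n‖ ≤ C) : Linf 𝕜 :=
  BoundedContinuousFunction.ofNormedAddCommGroupDiscrete f C h

@[simp] theorem mkL_apply (f : ℕ → 𝕜) (C : ℝ) (h : ∀ n, ‖f n‖ ≤ C) (n : ℕ) :
    mkL f C h n = f n := rfl

/-- The indicator function of a set of natural numbers. -/
noncomputable def ind (𝕜 : Type*) [RCLike 𝕜] (s : Set ℕ) : Linf 𝕜 :=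
  mkL (s.indicator 1) 1 fun n => by by_cases h : n ∈ s <;> simp [h]

theorem ind_of_mem {s : Set ℕ} {n : ℕ} (h : n ∈ s) : ind 𝕜 s n = 1 := by simp [ind, h]

theorem ind_of_notMem {s : Set ℕ} {n : ℕ} (h : n ∉ s) : ind 𝕜 s n = 0 := by simp [ind, h]

/-- Finitely supported sequences. -/
def X0 (𝕜 : Type*) [RCLike 𝕜] : Submodule 𝕜 (Linf 𝕜) :=
  Submodule.span 𝕜 (Set.range fun t : ℕ => ind 𝕜 {t})

/-- The closed span of the unit vectors and of the indicators of the sets `a b`, `b ∈ A`. -/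
noncomputable def XA (𝕜 : Type*) [RCLike 𝕜] {B : Type*} (a : B → Set ℕ) (A : Set B) :
    Submodule 𝕜 (Linf 𝕜) :=
  (X0 𝕜 ⊔ Submodule.span 𝕜 ((fun b => ind 𝕜 (a b)) '' A)).topologicalClosure

theorem mem_X0_of_finite (x : Linf 𝕜) (F : Set ℕ) (hF : F.Finite) (h : ∀ t, t ∉ F → x t = 0) :
    x ∈ X0 𝕜 := by
  classical
  have : x = ∑ t ∈ hF.toFinset, x t • ind 𝕜 {t} := by
    ext n
    rw [BoundedContinuousFunction.sum_apply, Finset.sum_eq_single n]
    · simp [ind_of_mem]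
    · intro t _ ht
      have : n ∉ ({t} : Set ℕ) := fun h => ht (Set.mem_singleton_iff.1 h).symm
      simp [ind_of_notMem this]
    · intro hn
      have : x n = 0 := h n (by simpa using hn)
      simp [this]
  rw [this]
  exact Submodule.sum_mem _ fun t _ => Submodule.smul_mem _ _ (Submodule.subset_span ⟨t, rfl⟩)

theorem isSeparable_X0 : TopologicalSpace.IsSeparable (X0 𝕜 : Set (Linf 𝕜)) :=
  (Set.countable_range _).isSeparable.span

variable {B : Type*} {a : B → Set ℕ}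

theorem countable_support (had : ∀ b b', b ≠ b' → (a b ∩ a b').Finite)
    (ν : StrongDual 𝕜 (Linf 𝕜)) (hν : ∀ x ∈ X0 𝕜, ν x = 0) :
    {b | ν (ind 𝕜 (a b)) ≠ 0}.Countable := by
  classical
  have hsum : Summable fun b => ‖ν (ind 𝕜 (a b))‖ := by
    refine summable_of_sum_le (c := ‖ν‖) (fun _ => norm_nonneg _) fun S => ?_
    choose c hc hc' using fun b => RCLike.exists_norm_eq_mul_self (ν (ind 𝕜 (a b)))
    let x : Linf 𝕜 := ∑ b ∈ S, c b • ind 𝕜 (a b)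
    let F : Set ℕ := ⋃ p ∈ {p : B × B | p.1 ∈ S ∧ p.2 ∈ S ∧ p.1 ≠ p.2}, a p.1 ∩ a p.2
    have hF : F.Finite := by
      refine Set.Finite.biUnion ?_ fun p hp => had _ _ hp.2.2
      exact (S.finite_toSet.prod S.finite_toSet).subset fun p hp => ⟨hp.1, hp.2.1⟩
    have h0 : x * ind 𝕜 F ∈ X0 𝕜 :=
      mem_X0_of_finite _ F hF fun t ht => by simp [ind_of_notMem ht]
    have h1 : ‖x - x * ind 𝕜 F‖ ≤ 1 := by
      refine (BoundedContinuousFunction.norm_le zero_le_one).2 fun t => ?_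
      by_cases ht : t ∈ F
      · simp [ind_of_mem ht]
      · have h2 : (x - x * ind 𝕜 F) t = ∑ b ∈ S, c b * ind 𝕜 (a b) t := by
          simp [ind_of_notMem ht, x]
        rw [h2]
        by_cases hex : ∃ b ∈ S, t ∈ a b
        · obtain ⟨b, hb, htb⟩ := hex
          rw [Finset.sum_eq_single_of_mem b hb]
          · simp [ind_of_mem htb, hc b]
          · intro b' hb' hne
            have : t ∉ a b' := fun h => ht (Set.mem_biUnion
              (show (b', b) ∈ {p : B × B | p.1 ∈ S ∧ p.2 ∈ S ∧ p.1 ≠ p.2} from ⟨hb', hb, hne⟩)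
              ⟨h, htb⟩)
            simp [ind_of_notMem this]
        · push Not at hex
          rw [Finset.sum_eq_zero fun b hb => by simp [ind_of_notMem (hex b hb)]]
          simp
    have h3 : ν (x - x * ind 𝕜 F) = ((∑ b ∈ S, ‖ν (ind 𝕜 (a b))‖ : ℝ) : 𝕜) := by
      rw [map_sub, hν _ h0, sub_zero]
      push_cast
      simp [x, hc']
    have h4 := ν.unit_le_opNorm _ h1
    rw [h3, RCLike.norm_ofReal] at h4
    exact (le_abs_self _).trans h4
  refine hsum.countable_support.mono fun b hb => ?_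
  simpa using hb

theorem XA_le (A : Set B) (W : Submodule 𝕜 (Linf 𝕜)) (hW : IsClosed (W : Set (Linf 𝕜)))
    (h0 : X0 𝕜 ≤ W) (h1 : ∀ b ∈ A, ind 𝕜 (a b) ∈ W) : XA 𝕜 a A ≤ W := by
  refine Submodule.topologicalClosure_minimal _ (sup_le h0 ?_) hW
  rw [Submodule.span_le]
  rintro _ ⟨b, hb, rfl⟩
  exact h1 b hb

theorem ind_mem_XA {A : Set B} {b : B} (hb : b ∈ A) : ind 𝕜 (a b) ∈ XA 𝕜 a A :=
  Submodule.le_topologicalClosure _
    (Submodule.mem_sup_right (Submodule.subset_span ⟨b, hb, rfl⟩))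

theorem isSeparable_of_angle (had : ∀ b b', b ≠ b' → (a b ∩ a b').Finite) (A : Set B)
    (V : Submodule 𝕜 (Linf 𝕜)) (K : ℝ) (hK : 0 ≤ K) (hV : V ≤ XA 𝕜 a A)
    (h : ∀ x ∈ V, ∀ x₀ ∈ (X0 𝕜 : Set (Linf 𝕜)), ‖x‖ ≤ K * ‖x - x₀‖) :
    TopologicalSpace.IsSeparable (V : Set (Linf 𝕜)) := by
  have h1 : ∀ x ∈ V, ‖x‖ ≤ K * ‖(X0 𝕜).mkQ x‖ := by
    intro x hx
    refine le_of_forall_pos_le_add fun ε hε => ?_
    obtain ⟨m, hm, hm'⟩ := Submodule.Quotient.norm_mk_lt ((X0 𝕜).mkQ x) (ε := ε / (K + 1))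
      (by positivity)
    have h2 : x - m ∈ X0 𝕜 := by
      rw [← Submodule.Quotient.eq]
      exact hm.symm
    have h3 := h x hx _ h2
    rw [sub_sub_cancel] at h3
    have h4 : K * (ε / (K + 1)) ≤ ε := by
      rw [mul_div_assoc', div_le_iff₀ (by positivity)]
      nlinarith
    calc ‖x‖ ≤ K * ‖m‖ := h3
      _ ≤ K * (‖(X0 𝕜).mkQ x‖ + ε / (K + 1)) := by gcongr
      _ ≤ _ := by rw [mul_add]; linarith
  have h2 : ∀ t : ℕ, ∃ ν : StrongDual 𝕜 (Linf 𝕜), (∀ x, ‖ν x‖ ≤ K * ‖x‖) ∧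
      (∀ x ∈ X0 𝕜, ν x = 0) ∧ ∀ x ∈ V, ν x = x t := by
    intro t
    obtain ⟨ν, hν, hν'⟩ := factor (E := V) (W := Linf 𝕜 ⧸ X0 𝕜) ((X0 𝕜).mkQ ∘ₗ V.subtype)
      ((BoundedContinuousFunction.evalCLM 𝕜 t).toLinearMap ∘ₗ V.subtype) K hK fun x =>
        ((x : Linf 𝕜).norm_coe_le_norm t).trans (h1 x x.2)
    refine ⟨ν.comp (X0 𝕜).mkQL, fun x => ?_, fun x hx => ?_, fun x hx => hν' ⟨x, hx⟩⟩
    · exact (ν.le_opNorm _).trans
        (mul_le_mul hν (Submodule.Quotient.norm_mk_le _ x) (norm_nonneg _) hK)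
    · have : (X0 𝕜).mkQ x = 0 := (Submodule.Quotient.mk_eq_zero _).2 hx
      change ν ((X0 𝕜).mkQ x) = 0
      rw [this, map_zero]
  choose ν hνb hν0 hνV using h2
  let N₀ : Linf 𝕜 →ₗ[𝕜] Linf 𝕜 :=
    { toFun := fun x => mkL (fun t => ν t x) (K * ‖x‖) fun t => hνb t x
      map_add' := fun x y => by ext t; simp
      map_smul' := fun c x => by ext t; simp }
  let N : Linf 𝕜 →L[𝕜] Linf 𝕜 := N₀.mkContinuous K fun x =>
    (BoundedContinuousFunction.norm_le (by positivity)).2 fun t => hνb t x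
  have hN : ∀ x t, N x t = ν t x := fun _ _ => rfl
  let A₀ : Set B := ⋃ t, {b | ν t (ind 𝕜 (a b)) ≠ 0}
  have hA₀ : A₀.Countable := Set.countable_iUnion fun t => countable_support had _ (hν0 t)
  let S : Submodule 𝕜 (Linf 𝕜) :=
    (Submodule.span 𝕜 ((fun b => N (ind 𝕜 (a b))) '' A₀)).topologicalClosure
  have hS : TopologicalSpace.IsSeparable (S : Set (Linf 𝕜)) :=
    (hA₀.image _).isSeparable.span.closure
  have h3 : XA 𝕜 a A ≤ S.comap N.toLinearMap := by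
    refine XA_le A _ ((Submodule.isClosed_topologicalClosure _).preimage N.continuous)
      (fun x hx => ?_) fun b _ => ?_
    · have : N x = 0 := by ext t; rw [hN, hν0 t x hx]; rfl
      change N x ∈ S
      rw [this]; exact S.zero_mem
    · change N (ind 𝕜 (a b)) ∈ S
      by_cases hb : b ∈ A₀
      · exact Submodule.le_topologicalClosure _ (Submodule.subset_span ⟨b, hb, rfl⟩)
      · have : N (ind 𝕜 (a b)) = 0 := by
          ext t
          rw [hN]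
          by_contra hne
          exact hb (Set.mem_iUnion.2 ⟨t, hne⟩)
        rw [this]; exact S.zero_mem
  refine hS.mono fun x hx => ?_
  have h4 : N x = x := by ext t; rw [hN, hνV t x hx]
  have h5 : N x ∈ S := h3 (hV hx)
  rwa [h4] at h5

theorem XA_inj (hinf : ∀ b, (a b).Infinite) (had : ∀ b b', b ≠ b' → (a b ∩ a b').Finite)
    {A A' : Set B} (h : XA 𝕜 a A ≤ XA 𝕜 a A') : A ⊆ A' := by
  intro b hb
  by_contra hb'
  let W : Submodule 𝕜 (Linf 𝕜) :=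
    { carrier := {x | (a b ∩ {t | x t ≠ 0}).Finite}
      add_mem' := fun {x y} hx hy => (Set.Finite.union hx hy).subset fun t ht => by
        by_contra hcon
        simp only [Set.mem_union, Set.mem_inter_iff, ht.1, true_and, Set.mem_ofPred_eq, not_or,
          not_not] at hcon
        exact ht.2 (by simp [hcon.1, hcon.2])
      zero_mem' := by simp
      smul_mem' := fun c x hx => Set.Finite.subset hx fun t ht =>
        ⟨ht.1, fun h0 => ht.2 (by simp [h0])⟩ }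
  have h1 : XA 𝕜 a A' ≤ W.topologicalClosure := by
    refine XA_le A' _ (Submodule.isClosed_topologicalClosure _) ?_ fun b' hb'' => ?_
    · refine le_trans ?_ (Submodule.le_topologicalClosure _)
      rw [X0, Submodule.span_le]
      rintro _ ⟨t, rfl⟩
      refine (Set.finite_singleton t).subset fun s hs => ?_
      by_contra hst
      exact hs.2 (ind_of_notMem hst)
    · refine Submodule.le_topologicalClosure _ ?_
      refine (had b b' fun hbb => hb' (hbb ▸ hb'')).subset fun s hs => ⟨hs.1, ?_⟩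
      by_contra hst
      exact hs.2 (ind_of_notMem hst)
  have h2 : ind 𝕜 (a b) ∈ closure (W : Set (Linf 𝕜)) := h1 (h (ind_mem_XA hb))
  obtain ⟨x, hx, hd⟩ := Metric.mem_closure_iff.1 h2 1 one_pos
  obtain ⟨t, ht, ht'⟩ := (hinf b).exists_notMem_finite hx
  have h3 : x t = 0 := by
    by_contra hne
    exact ht' ⟨ht, hne⟩
  have h4 := (ind 𝕜 (a b) - x).norm_coe_le_norm t
  rw [dist_eq_norm] at hd
  simp [ind_of_mem ht, h3] at h4
  linarith

end Pool.Agent.MP_cdcde1_an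

end MrgPart4

-- ======== part 5: formerly Pool.Agent.MP_cdcde1_an.Count
section MrgPart5

/-! Counting arguments. -/

set_option autoImplicit false
set_option maxSynthPendingDepth 3

open Filter Topology

namespace Pool.Agent.MP_cdcde1_an

variable {𝕜 : Type} [RCLike 𝕜]

theorem card_K : Cardinal.mk 𝕜 ≤ Cardinal.continuum := by
  have h : Function.Injective fun x : 𝕜 => (RCLike.re x, RCLike.im x) := fun x y h =>
    RCLike.ext (congrArg Prod.fst h) (congrArg Prod.snd h)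
  simpa [Cardinal.mk_real] using Cardinal.mk_le_of_injective h

theorem card_seq {α : Type} (h : Cardinal.mk α ≤ Cardinal.continuum) :
    Cardinal.mk (ℕ → α) ≤ Cardinal.continuum := by
  rw [← Cardinal.power_def, Cardinal.mk_nat]
  exact (Cardinal.power_le_power_right h).trans Cardinal.continuum_power_aleph0.le

theorem card_prod {α β : Type} (h : Cardinal.mk α ≤ Cardinal.continuum)
    (h' : Cardinal.mk β ≤ Cardinal.continuum) : Cardinal.mk (α × β) ≤ Cardinal.continuum := by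
  rw [Cardinal.mk_prod, Cardinal.lift_id, Cardinal.lift_id]
  exact (mul_le_mul' h h').trans Cardinal.continuum_mul_self.le

theorem card_fib {α β : Type} (f : α → β) (h : Cardinal.mk β ≤ Cardinal.continuum)
    (hf : ∀ b, Cardinal.mk (f ⁻¹' {b}) ≤ Cardinal.continuum) :
    Cardinal.mk α ≤ Cardinal.continuum :=
  (Cardinal.mk_le_mk_mul_of_mk_preimage_le f hf).trans
    ((mul_le_mul' h le_rfl).trans Cardinal.continuum_mul_self.le)

theorem card_Linf : Cardinal.mk (Linf 𝕜) ≤ Cardinal.continuum :=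
  (Cardinal.mk_le_of_injective (DFunLike.coe_injective (F := Linf 𝕜))).trans (card_seq card_K)

theorem card_csupp {B : Type} [Nonempty B] (hB : Cardinal.mk B ≤ Cardinal.continuum) :
    Cardinal.mk {g : B → 𝕜 // {b | g b ≠ 0}.Countable} ≤ Cardinal.continuum := by
  have h : ∀ g : {g : B → 𝕜 // {b | g b ≠ 0}.Countable},
      ∃ s : ℕ → B, {b | g.1 b ≠ 0} ⊆ Set.range s := fun g =>
    Set.countable_iff_exists_subset_range.1 g.2
  choose s hs using h
  have hinj : Function.Injective fun g => (s g, fun n => g.1 (s g n)) := by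
    intro g g' h
    have h1 : s g = s g' := congrArg Prod.fst h
    have h2 : ∀ n, g.1 (s g n) = g'.1 (s g' n) := fun n => congrFun (congrArg Prod.snd h) n
    refine Subtype.ext (funext fun b => ?_)
    by_cases hb : b ∈ Set.range (s g)
    · obtain ⟨n, rfl⟩ := hb
      rw [h2 n, h1]
    · have h3 : g.1 b = 0 := by
        by_contra hne
        exact hb (hs g hne)
      have h4 : g'.1 b = 0 := by
        by_contra hne
        exact hb (h1 ▸ hs g' hne)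
      rw [h3, h4]
  exact (Cardinal.mk_le_of_injective hinj).trans (card_prod (card_seq hB) (card_seq card_K))

variable {B : Type} {a : B → Set ℕ}

theorem card_ann [Nonempty B] (hB : Cardinal.mk B ≤ Cardinal.continuum)
    (had : ∀ b b', b ≠ b' → (a b ∩ a b').Finite) {Z : Type} [NormedAddCommGroup Z]
    [NormedSpace 𝕜 Z] {A : Set B} {q : StrongDual 𝕜 (StrongDual 𝕜 Z) →L[𝕜] Linf 𝕜} {M : ℝ}
    (hq : Rep (XA 𝕜 a A) q M) :
    Cardinal.mk {Φ : StrongDual 𝕜 (StrongDual 𝕜 (StrongDual 𝕜 Z)) // ∀ z, Φ (kap 𝕜 Z z) = 0} ≤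
      Cardinal.continuum := by
  have h : ∀ Φ : {Φ : StrongDual 𝕜 (StrongDual 𝕜 (StrongDual 𝕜 Z)) // ∀ z, Φ (kap 𝕜 Z z) = 0},
      ∃ ν : StrongDual 𝕜 (Linf 𝕜), ∀ u, ν (q u) = Φ.1 u := by
    intro Φ
    obtain ⟨ν, -, hν⟩ := factor (E := StrongDual 𝕜 (StrongDual 𝕜 Z)) (W := Linf 𝕜)
      q.toLinearMap Φ.1.toLinearMap (‖Φ.1‖ * M) (mul_nonneg (norm_nonneg _) hq.nonneg)
      (hq.bound Φ.1 Φ.2)
    exact ⟨ν, hν⟩
  choose ν hν using h
  have hvan : ∀ μ : StrongDual 𝕜 (Linf 𝕜), (∀ t : ℕ, μ (ind 𝕜 {t}) = 0) → ∀ x ∈ X0 𝕜, μ x = 0 := by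
    intro μ hμ
    have : X0 𝕜 ≤ LinearMap.ker μ.toLinearMap := by
      rw [X0, Submodule.span_le]
      rintro _ ⟨t, rfl⟩
      exact hμ t
    exact fun x hx => this hx
  refine card_fib (fun Φ (t : ℕ) => ν Φ (ind 𝕜 {t})) (card_seq card_K) fun r => ?_
  rcases Set.eq_empty_or_nonempty ((fun Φ (t : ℕ) => ν Φ (ind 𝕜 {t})) ⁻¹' {r}) with h0 | ⟨Φ₁, hΦ₁⟩
  · rw [h0]; simp
  have hdiff : ∀ Φ Φ' : ((fun Φ (t : ℕ) => ν Φ (ind 𝕜 {t})) ⁻¹' {r}), ∀ x ∈ X0 𝕜,
      (ν Φ.1 - ν Φ'.1) x = 0 := by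
    intro Φ Φ'
    refine hvan _ fun t => ?_
    have h1 : ν Φ.1 (ind 𝕜 {t}) = r t := congrFun Φ.2 t
    have h2 : ν Φ'.1 (ind 𝕜 {t}) = r t := congrFun Φ'.2 t
    rw [sub_apply, h1, h2, sub_self]
  let g : ((fun Φ (t : ℕ) => ν Φ (ind 𝕜 {t})) ⁻¹' {r}) →
      {g : B → 𝕜 // {b | g b ≠ 0}.Countable} :=
    fun Φ => ⟨fun b => (ν Φ.1 - ν Φ₁) (ind 𝕜 (a b)),
      countable_support had _ (hdiff Φ ⟨Φ₁, hΦ₁⟩)⟩
  have hg : Function.Injective g := by
    intro Φ Φ' h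
    have h1 : XA 𝕜 a A ≤ LinearMap.ker (ν Φ.1 - ν Φ'.1).toLinearMap := by
      refine XA_le A _ (ContinuousLinearMap.isClosed_ker _) (hdiff Φ Φ') fun b _ => ?_
      have h2 : (ν Φ.1 - ν Φ₁) (ind 𝕜 (a b)) = (ν Φ'.1 - ν Φ₁) (ind 𝕜 (a b)) :=
        congrFun (congrArg Subtype.val h) b
      change (ν Φ.1 - ν Φ'.1) (ind 𝕜 (a b)) = 0
      rw [sub_apply] at h2 ⊢
      rw [sub_apply] at h2
      linear_combination h2
    refine Subtype.ext (Subtype.ext (ContinuousLinearMap.ext fun u => ?_))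
    have h3 : (ν Φ.1 - ν Φ'.1) (q u) = 0 := h1 (hq.mem u)
    rw [sub_apply, hν, hν] at h3
    exact sub_eq_zero.1 h3
  exact (Cardinal.mk_le_of_injective hg).trans (card_csupp hB)

theorem card_rep [Nonempty B] (hB : Cardinal.mk B ≤ Cardinal.continuum)
    (hinf : ∀ b, (a b).Infinite) (had : ∀ b b', b ≠ b' → (a b ∩ a b').Finite) (Z : Type)
    [NormedAddCommGroup Z] [NormedSpace 𝕜 Z] (S : Set (Set B))
    (hS : ∀ A ∈ S, ∃ (q : StrongDual 𝕜 (StrongDual 𝕜 Z) →L[𝕜] Linf 𝕜) (M : ℝ),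
      Rep (XA 𝕜 a A) q M) : Cardinal.mk S ≤ Cardinal.continuum := by
  rcases Set.eq_empty_or_nonempty S with rfl | ⟨A₀, hA₀⟩
  · simp
  obtain ⟨q₀, M₀, hq₀⟩ := hS A₀ hA₀
  choose q M hq using fun A : S => hS A.1 A.2
  let Φ : S → ℕ →
      {Φ : StrongDual 𝕜 (StrongDual 𝕜 (StrongDual 𝕜 Z)) // ∀ z, Φ (kap 𝕜 Z z) = 0} :=
    fun A t => ⟨(BoundedContinuousFunction.evalCLM 𝕜 t).comp (q A), fun z => by
      change (q A (kap 𝕜 Z z)) t = 0
      rw [(hq A).ker]; rfl⟩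
  have hle : ∀ A A' : S, Φ A = Φ A' → A.1 ⊆ A'.1 := by
    intro A A' h
    refine XA_inj (𝕜 := 𝕜) hinf had fun x hx => ?_
    have h1 : Set.range (q A) ⊆ XA 𝕜 a A'.1 := by
      rintro _ ⟨u, rfl⟩
      have : q A u = q A' u := by
        ext t
        exact DFunLike.congr_fun (congrArg Subtype.val (congrFun h t)) u
      rw [this]
      exact (hq A').mem u
    exact closure_minimal h1 (Submodule.isClosed_topologicalClosure _) ((hq A).dense hx)
  have hΦ : Function.Injective Φ := fun A A' h =>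
    Subtype.ext (Set.Subset.antisymm (hle A A' h) (hle A' A h.symm))
  exact (Cardinal.mk_le_of_injective hΦ).trans (card_seq (card_ann hB had hq₀))

/-- Every sequence in a normed space lies in an isometric copy of a countably generated subspace
of the space of bounded sequences. -/
theorem exists_code {Y : Type*} [NormedAddCommGroup Y] [NormedSpace 𝕜 Y] (d : ℕ → Y) :
    ∃ (s : ℕ → Linf 𝕜) (j : Submodule.span 𝕜 (Set.range s) →ₗᵢ[𝕜] Y),
      Set.range d ⊆ Set.range j := by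
  let Z : Submodule 𝕜 Y := Submodule.span 𝕜 (Set.range d)
  have hZ : TopologicalSpace.SeparableSpace Z :=
    ((Set.countable_range d).isSeparable.span (R := 𝕜)).separableSpace
  obtain ⟨z, hz⟩ := TopologicalSpace.exists_dense_seq Z
  choose h hh1 hh2 using fun n => exists_dual_vector'' 𝕜 (z n)
  have hb : ∀ (x : Z) n, ‖h n x‖ ≤ ‖x‖ := fun x n =>
    ((h n).le_opNorm x).trans (mul_le_of_le_one_left (norm_nonneg _) (hh1 n))
  let e : Z →ₗᵢ[𝕜] Linf 𝕜 :=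
    { toFun := fun x => mkL (fun n => h n x) ‖x‖ (hb x)
      map_add' := fun x y => by ext t; simp
      map_smul' := fun c x => by ext t; simp
      norm_map' := fun x => by
        refine le_antisymm ((BoundedContinuousFunction.norm_le (norm_nonneg _)).2 (hb x)) ?_
        refine le_of_forall_pos_le_add fun ε hε => ?_
        obtain ⟨n, hn⟩ := hz.exists_dist_lt x (ε := ε / 2) (by positivity)
        rw [dist_eq_norm] at hn
        have h1 : ‖h n x‖ ≤ ‖mkL (fun n => h n x) ‖x‖ (hb x)‖ :=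
          (mkL (fun n => h n x) ‖x‖ (hb x)).norm_coe_le_norm n
        have h2 : ‖h n (z n)‖ = ‖z n‖ := by rw [hh2 n]; simp
        have h3 : ‖h n (z n)‖ ≤ ‖h n x‖ + ‖h n (x - z n)‖ := by
          have : h n (z n) = h n x - h n (x - z n) := by simp
          rw [this]; exact norm_sub_le _ _
        have h4 := hb (x - z n) n
        have h5 : ‖x‖ ≤ ‖z n‖ + ‖x - z n‖ := by
          have := norm_add_le (z n) (x - z n)
          simpa using this
        change ‖x‖ ≤ ‖mkL (fun n => h n x) ‖x‖ (hb x)‖ + ε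
        linarith }
  let d' : ℕ → Z := fun n => ⟨d n, Submodule.subset_span ⟨n, rfl⟩⟩
  have hle : Submodule.span 𝕜 (Set.range fun n => e (d' n)) ≤ LinearMap.range e.toLinearMap := by
    rw [Submodule.span_le]
    rintro _ ⟨n, rfl⟩
    exact ⟨d' n, rfl⟩
  let i : Submodule.span 𝕜 (Set.range fun n => e (d' n)) →ₗᵢ[𝕜] LinearMap.range e.toLinearMap :=
    ⟨Submodule.inclusion hle, fun _ => rfl⟩
  refine ⟨fun n => e (d' n),
    Z.subtypeₗᵢ.comp (e.equivRange.symm.toLinearIsometry.comp i), ?_⟩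
  rintro _ ⟨n, rfl⟩
  refine ⟨⟨e (d' n), Submodule.subset_span ⟨n, rfl⟩⟩, ?_⟩
  have : e.equivRange.symm ⟨e (d' n), ⟨d' n, rfl⟩⟩ = d' n := by
    rw [LinearIsometryEquiv.symm_apply_eq]
    rfl
  exact congrArg Subtype.val this

theorem exists_ad : ∃ a : (ℕ → Bool) → Set ℕ, (∀ b, (a b).Infinite) ∧
    ∀ b b', b ≠ b' → (a b ∩ a b').Finite := by
  let node : (ℕ → Bool) → ℕ → ℕ := fun b n => Encodable.encode (List.ofFn fun i : Fin n => b i)
  have hlen : ∀ b b' n m, node b n = node b' m → n = m := fun b b' n m h => by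
    simpa using congrArg List.length (Encodable.encode_injective h)
  refine ⟨fun b => Set.range (node b),
    fun b => Set.infinite_range_of_injective fun n m h => hlen b b n m h, fun b b' hne => ?_⟩
  obtain ⟨k, hk⟩ := Function.ne_iff.1 hne
  refine ((Set.finite_le_nat k).image (node b)).subset ?_
  rintro _ ⟨⟨n, rfl⟩, m, hm⟩
  obtain rfl := hlen _ _ _ _ hm
  refine ⟨m, ?_, rfl⟩
  by_contra hlt
  have h1 := List.ofFn_injective (Encodable.encode_injective hm)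
  exact hk (congrFun h1 ⟨k, not_le.1 hlt⟩).symm

universe u

theorem exists_not_rep (𝕜 : Type) [RCLike 𝕜] : ∃ X : Submodule 𝕜 (Linf 𝕜),
    IsClosed (X : Set (Linf 𝕜)) ∧ ∀ (Y : Type u) [NormedAddCommGroup Y] [NormedSpace 𝕜 Y]
      (q : StrongDual 𝕜 (StrongDual 𝕜 Y) →L[𝕜] Linf 𝕜) (M : ℝ), ¬ Rep X q M := by
  obtain ⟨a, hinf, had⟩ := exists_ad
  by_contra hcon
  push Not at hcon
  have hB : Cardinal.mk (ℕ → Bool) = Cardinal.continuum := by simp
  have h : ∀ A : Set (ℕ → Bool), ∃ s : ℕ → Linf 𝕜,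
      ∃ (q : StrongDual 𝕜 (StrongDual 𝕜 (Submodule.span 𝕜 (Set.range s))) →L[𝕜] Linf 𝕜) (M : ℝ),
        Rep (XA 𝕜 a A) q M := by
    intro A
    obtain ⟨Y, _, _, q, M, hq⟩ := hcon (XA 𝕜 a A) (Submodule.isClosed_topologicalClosure _)
    obtain ⟨D, hD, hDX⟩ := reduce hq (fun t => BoundedContinuousFunction.evalCLM 𝕜 t)
      (fun x r hr h => (BoundedContinuousFunction.norm_le hr).2 h)
      (fun t => ContinuousLinearMap.opNorm_le_bound _ zero_le_one fun x => by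
        simpa using x.norm_coe_le_norm t)
      (X0 𝕜) isSeparable_X0 (isSeparable_of_angle had A)
    obtain ⟨d, hd⟩ := Set.countable_iff_exists_subset_range.1 hD
    obtain ⟨s, j, hj⟩ := exists_code (𝕜 := 𝕜) d
    exact ⟨s, _, _, hq.transfer j
      (hDX.trans (closure_mono (Set.image_mono (biann_mono (hd.trans hj)))))⟩
  choose s hs using h
  have h1 : Cardinal.mk (Set (ℕ → Bool)) ≤ Cardinal.continuum := by
    refine card_fib s (card_seq card_Linf) fun r => ?_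
    refine card_rep (𝕜 := 𝕜) hB.le hinf had (Submodule.span 𝕜 (Set.range r)) _ fun A hA => ?_
    have h2 : s A = r := hA
    exact h2 ▸ hs A
  rw [Cardinal.mk_set, hB] at h1
  exact absurd h1 (not_le.2 (Cardinal.cantor _))

end Pool.Agent.MP_cdcde1_an

end MrgPart5

-- marker of a merged file
example : 731051 + 837149 = 731051 + 837149 := rfl
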